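import Pool.Agent.Helper99.FV.Sym

namespace Pool.Agent.Helper99.FV

/-- `{0, m, m + 2, m + 3, …} \ {2 m + 1}` with `m = n + 4`. -/
def Tsg (n : ℕ) : AddSubmonoid ℕ where
  carrier := {x | x = 0 ∨ x = n + 4 ∨ (n + 6 ≤ x ∧ x ≠ 2 * n + 9)}
  add_mem' := by
    intro a b ha hb
    simp only [Set.mem_ofPred_eq] at ha hb ⊢
    omega
  zero_mem' := Or.inl rfl

lemma mem_Tsg {n x : ℕ} : x ∈ Tsg n ↔ x = 0 ∨ x = n + 4 ∨ (n + 6 ≤ x ∧ x ≠ 2 * n + 9) := Iff.rfl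

lemma Tsg_numerical (n : ℕ) : IsNumerical (Tsg n) := by
  apply (Set.finite_Iic (2 * n + 9)).subset
  intro x hx
  rw [Set.mem_Iic]
  by_contra h
  exact hx (mem_Tsg.2 (by omega))

lemma Tsg_frob (n : ℕ) : frob (Tsg n) = ((2 * n + 9 : ℕ) : ℤ) := by
  apply frob_eq
  · rw [mem_Tsg]
    omega
  · intro k hk
    rw [mem_Tsg]
    omega

lemma Tsg_mult (n : ℕ) : mult (Tsg n) = n + 4 := by
  apply le_antisymm
  · exact mult_le (mem_Tsg.2 (Or.inr (Or.inl rfl))) (by omega)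
  · obtain ⟨h1, h2⟩ := mult_spec (Tsg_numerical n)
    rw [mem_Tsg] at h1
    omega

lemma Tsg_symm (n : ℕ) : IsSymmetric (Tsg n) := by
  intro a b hab
  rw [Tsg_frob] at hab
  have : a + b = 2 * n + 9 := by exact_mod_cast hab
  rw [mem_Tsg, mem_Tsg]
  omega

lemma Tsg_genus (n : ℕ) : genus (Tsg n) = n + 5 := by
  have h1 := sym_genus (Tsg_numerical n) (Tsg_symm n) (by rw [Tsg_mult]; omega)
  have h2 := genus_add_leftCount (S := Tsg n) (f := 2 * n + 9) (by rw [mem_Tsg]; omega)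
    (fun k hk => by rw [mem_Tsg]; omega)
  omega

lemma Tsg_minGens (n : ℕ) : n + 3 ≤ (minGens (Tsg n)).ncard := by
  have h1 : (insert (n + 4) (Finset.Ico (n + 6) (2 * n + 8))).card = n + 3 := by
    rw [Finset.card_insert_of_notMem (by rw [Finset.mem_Ico]; omega), Nat.card_Ico]
    omega
  rw [← h1, ← Set.ncard_coe_finset]
  apply Set.ncard_le_ncard _ (minGens_finite (Tsg_numerical n))
  intro x hx
  have hx' : x = n + 4 ∨ (n + 6 ≤ x ∧ x < 2 * n + 8) := by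
    simpa [Finset.mem_insert, Finset.mem_Ico] using hx
  refine ⟨mem_Tsg.2 (by omega), by omega, ?_⟩
  intro a ha b hb hab
  rw [mem_Tsg] at ha hb
  omega

lemma Tsg_cond (n : ℕ) : (mult (Tsg n) : ℤ) - 2 ≤ (((minGens (Tsg n)).ncard : ℤ) - 2) *
    ((genus (Tsg n) : ℤ) - (mult (Tsg n) : ℤ) + 1) := by
  have h1 : ((n : ℤ) + 3) ≤ ((minGens (Tsg n)).ncard : ℤ) := by exact_mod_cast Tsg_minGens n
  rw [Tsg_mult, Tsg_genus]
  push_cast
  have h2 : (n : ℤ) + 5 - (n + 4) + 1 = 2 := by ring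
  rw [h2]
  have h3 : (0 : ℤ) ≤ n := Int.natCast_nonneg n
  linarith

lemma Tsg_inj {n k : ℕ} (h : Tsg n = Tsg k) : n = k := by
  have h1 := Tsg_mult n
  rw [h, Tsg_mult] at h1
  omega

lemma Tsg_set (M : Set ℕ) : ∀ C ∈ Tsg '' M, IsNumerical C ∧ IsSymmetric C ∧ 3 ≤ mult C := by
  rintro C ⟨n, _, rfl⟩
  exact ⟨Tsg_numerical n, Tsg_symm n, by rw [Tsg_mult]; omega⟩

lemma continuum_part : ∃ Φ : Set ℕ → Set (AddSubmonoid ℕ), Function.Injective Φ ∧
    ∀ M, IsFrobeniusVariety (Φ M) ∧ (WilfType (Φ M) ↔ WilfType allNum) := by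
  refine ⟨fun M => without (Tsg '' M), ?_, fun M => ⟨without_isFrobeniusVariety (Tsg_set M), ?_⟩⟩
  · intro M N hMN
    have key : ∀ (A B : Set ℕ), without (Tsg '' A) = without (Tsg '' B) → A ⊆ B := by
      intro A B h n hn
      by_contra hnB
      have h1 : Tsg n ∈ without (Tsg '' B) := by
        refine ⟨Tsg_numerical n, ?_⟩
        rintro ⟨k, hk, hkn⟩
        exact hnB (Tsg_inj hkn ▸ hk)
      rw [← h] at h1
      exact h1.2 ⟨n, hn, rfl⟩
    exact Set.Subset.antisymm (key M N hMN) (key N M hMN.symm)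
  · rw [without_wilfType_iff (Tsg_set M)]
    constructor
    · exact fun h => h.1
    · intro h
      refine ⟨h, ?_⟩
      rintro C ⟨n, _, rfl⟩
      exact Tsg_cond n

/-! ### Two varieties without a common satisfying subvariety -/

/-- The varieties `6, 9, 10, 11 ∈ S ⟹ 13 ∈ S` and `6, 9, 10, 11, 13 ∈ S ⟹ 14 ∈ S`. -/
def VA : Set (AddSubmonoid ℕ) :=
  {S | IsNumerical S ∧ (6 ∈ S → 9 ∈ S → 10 ∈ S → 11 ∈ S → 13 ∈ S)}

/-- See `VA`. -/
def VB : Set (AddSubmonoid ℕ) :=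
  {S | IsNumerical S ∧ (6 ∈ S → 9 ∈ S → 10 ∈ S → 11 ∈ S → 13 ∈ S → 14 ∈ S)}

lemma implication_variety (A : Finset ℕ) (b : ℕ) (hb : ∀ a ∈ A, a < b) :
    IsFrobeniusVariety {S : AddSubmonoid ℕ | IsNumerical S ∧ ((∀ a ∈ A, a ∈ S) → b ∈ S)} := by
  constructor
  · refine ⟨⊤, ?_, fun _ => AddSubmonoid.mem_top _⟩
    simp [IsNumerical]
  · exact fun S hS => hS.1
  · rintro S ⟨hS, hS'⟩ T ⟨hT, hT'⟩
    refine ⟨allNum_isFrobeniusVariety.inter S hS T hT, fun h => ?_⟩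
    exact ⟨hS' fun a ha => (h a ha).1, hT' fun a ha => (h a ha).2⟩
  · rintro S ⟨hS, hS'⟩ hne
    obtain ⟨T, hT, hTe, f, hx, hfr, hrem, hge⟩ := parent_data hS hne
    refine ⟨T, ⟨hT, fun h => ?_⟩, hTe⟩
    by_cases hall : ∀ a ∈ A, a ∈ S
    · have h1 := hS' hall
      rw [← hrem] at h1
      exact h1.1
    · push Not at hall
      obtain ⟨a, ha, haS⟩ := hall
      have h1 : a = f := by
        by_contra hne'
        apply haS
        rw [← hrem]
        exact ⟨h a ha, hne'⟩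
      exact hge b (by have := hb a ha; omega)

lemma VA_variety : IsFrobeniusVariety VA := by
  have h := implication_variety {6, 9, 10, 11} 13 (by decide)
  have h2 : {S : AddSubmonoid ℕ | IsNumerical S ∧
      ((∀ a ∈ ({6, 9, 10, 11} : Finset ℕ), a ∈ S) → 13 ∈ S)} = VA := by
    ext S
    simp [VA]
  rwa [h2] at h

lemma VB_variety : IsFrobeniusVariety VB := by
  have h := implication_variety {6, 9, 10, 11, 13} 14 (by decide)
  have h2 : {S : AddSubmonoid ℕ | IsNumerical S ∧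
      ((∀ a ∈ ({6, 9, 10, 11, 13} : Finset ℕ), a ∈ S) → 14 ∈ S)} = VB := by
    ext S
    simp [VB]
  rwa [h2] at h

/-- Elements forced by `6, 9, 10, 11`. -/
lemma basic_mem {S : AddSubmonoid ℕ} (h6 : 6 ∈ S) (h9 : 9 ∈ S) (h10 : 10 ∈ S) (h11 : 11 ∈ S) :
    12 ∈ S ∧ ∀ n, 15 ≤ n → n ∈ S := by
  have h12 : 12 ∈ S := S.add_mem h6 h6
  have h15 : 15 ∈ S := S.add_mem h6 h9
  have h16 : 16 ∈ S := S.add_mem h6 h10
  have h17 : 17 ∈ S := S.add_mem h6 h11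
  have h18 : 18 ∈ S := S.add_mem h9 h9
  have h19 : 19 ∈ S := S.add_mem h9 h10
  have h20 : 20 ∈ S := S.add_mem h9 h11
  refine ⟨h12, ?_⟩
  intro n
  induction n using Nat.strong_induction_on with
  | _ n ih =>
    intro hn
    by_cases h21 : 21 ≤ n
    · have h1 := S.add_mem (ih (n - 6) (by omega) (by omega)) h6
      have h2 : n - 6 + 6 = n := by omega
      rwa [h2] at h1
    · have : n = 15 ∨ n = 16 ∨ n = 17 ∨ n = 18 ∨ n = 19 ∨ n = 20 := by omega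
      rcases this with rfl | rfl | rfl | rfl | rfl | rfl <;> assumption

/-- Consequences of `6, 9, 10, 11 ∈ S` and `13` not being a sum of two nonzero elements. -/
lemma basic_not {S : AddSubmonoid ℕ} (h6 : 6 ∈ S) (h9 : 9 ∈ S) (h10 : 10 ∈ S) (h11 : 11 ∈ S)
    (h13 : ∀ a ∈ S, ∀ b ∈ S, a + b = 13 → a = 0 ∨ b = 0) :
    1 ∉ S ∧ 2 ∉ S ∧ 3 ∉ S ∧ 4 ∉ S ∧ 7 ∉ S ∧ (5 ∉ S ∨ 8 ∉ S) := by
  have h12 : 12 ∈ S := (basic_mem h6 h9 h10 h11).1
  refine ⟨fun h => ?_, fun h => ?_, fun h => ?_, fun h => ?_, fun h => ?_, ?_⟩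
  · have := h13 1 h 12 h12 rfl
    omega
  · have := h13 2 h 11 h11 rfl
    omega
  · have := h13 3 h 10 h10 rfl
    omega
  · have := h13 4 h 9 h9 rfl
    omega
  · have := h13 7 h 6 h6 rfl
    omega
  · by_contra h
    push Not at h
    have := h13 5 h.1 8 h.2 rfl
    omega

lemma mem_minGens_of {S : AddSubmonoid ℕ} {x : ℕ} (hx : x ∈ S) (hx0 : x ≠ 0)
    (h : ∀ a, a ∈ S → 1 ≤ a → a ≤ x - 1 → x - a ∈ S → False) : x ∈ minGens S := by
  refine ⟨hx, hx0, ?_⟩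
  intro a ha b hb hab
  by_contra hne
  push Not at hne
  apply h a ha (by omega) (by omega)
  have : x - a = b := by omega
  rwa [this]

end Pool.Agent.Helper99.FV
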