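import Mathlib

namespace Pool.Agent.Helper99.FV

/-- A numerical semigroup: a submonoid of the natural numbers with finite complement. -/
def IsNumerical (S : AddSubmonoid ℕ) : Prop := ((S : Set ℕ)ᶜ).Finite

/-- The genus: the number of natural numbers outside `S`. -/
noncomputable def genus (S : AddSubmonoid ℕ) : ℕ := ((S : Set ℕ)ᶜ).ncard

/-- The Frobenius number: the largest integer outside `S` (it is `-1` for `S = ℕ`). -/
noncomputable def frob (S : AddSubmonoid ℕ) : ℤ := sSup {z : ℤ | ∀ n ∈ S, (n : ℤ) ≠ z}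

/-- The multiplicity: the least positive element of `S`. -/
noncomputable def mult (S : AddSubmonoid ℕ) : ℕ := sInf {x : ℕ | x ∈ S ∧ 0 < x}

/-- The number of elements of `S` below the Frobenius number. -/
noncomputable def leftCount (S : AddSubmonoid ℕ) : ℕ := {x : ℕ | x ∈ S ∧ (x : ℤ) < frob S}.ncard

/-- The minimal generators of `S`: the nonzero elements that are not a sum of two nonzero
elements of `S`. -/
def minGens (S : AddSubmonoid ℕ) : Set ℕ :=
  {x | x ∈ S ∧ x ≠ 0 ∧ ∀ a ∈ S, ∀ b ∈ S, a + b = x → a = 0 ∨ b = 0}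

/-- A Frobenius variety: a nonempty family of numerical semigroups closed under intersection of
two members and under adding the Frobenius number. -/
structure IsFrobeniusVariety (V : Set (AddSubmonoid ℕ)) : Prop where
  nonempty : V.Nonempty
  numerical : ∀ S ∈ V, IsNumerical S
  inter : ∀ S ∈ V, ∀ T ∈ V, S ⊓ T ∈ V
  addFrob : ∀ S ∈ V, S ≠ ⊤ → ∃ T ∈ V, (T : Set ℕ) = (S : Set ℕ) ∪ {x : ℕ | (x : ℤ) = frob S}

/-- A `V`-monoid: an intersection of members of `V`. -/
def IsVMonoid (V : Set (AddSubmonoid ℕ)) (M : AddSubmonoid ℕ) : Prop := ∃ W ⊆ V, M = sInf W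

/-- `V(A)`: the intersection of all `V`-monoids containing `A`. -/
noncomputable def vClosure (V : Set (AddSubmonoid ℕ)) (A : Set ℕ) : AddSubmonoid ℕ :=
  sInf {M | IsVMonoid V M ∧ A ⊆ (M : Set ℕ)}

/-- `A` is a minimal `V`-system of generators of `M`. -/
def IsMinimalSystem (V : Set (AddSubmonoid ℕ)) (A : Set ℕ) (M : AddSubmonoid ℕ) : Prop :=
  vClosure V A = M ∧ ∀ B : Set ℕ, B ⊂ A → vClosure V B ≠ M

/-- The Wilf-type inequality for `V`: `e g ≤ (e - 1) (F + 1)` for every member `S` of `V`, where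
`e` is the cardinality of the minimal `V`-system of generators of `S`. -/
def WilfType (V : Set (AddSubmonoid ℕ)) : Prop :=
  ∀ S ∈ V, ∀ A : Set ℕ, IsMinimalSystem V A S →
    (A.ncard : ℤ) * (genus S : ℤ) ≤ ((A.ncard : ℤ) - 1) * (frob S + 1)

/-! ### Frobenius number -/

lemma frob_eq {S : AddSubmonoid ℕ} {f : ℕ} (hf : f ∉ S) (h : ∀ n, f < n → n ∈ S) :
    frob S = f := by
  apply IsGreatest.csSup_eq
  constructor
  · intro n hn h1
    have : n = f := by exact_mod_cast h1
    exact hf (this ▸ hn)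
  · intro z hz
    by_contra hlt
    push Not at hlt
    have hz0 : 0 ≤ z := by omega
    have h1 : z.toNat ∈ S := h _ (by omega)
    exact hz _ h1 (by omega)

lemma frob_top : frob (⊤ : AddSubmonoid ℕ) = -1 := by
  apply IsGreatest.csSup_eq
  constructor
  · intro n _ h1
    omega
  · intro z hz
    by_contra hlt
    push Not at hlt
    exact hz z.toNat (AddSubmonoid.mem_top _) (by omega)

lemma exists_frob {S : AddSubmonoid ℕ} (hS : IsNumerical S) (hne : S ≠ ⊤) :
    ∃ f : ℕ, f ∉ S ∧ (∀ n, f < n → n ∈ S) ∧ frob S = f := by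
  have hn : ((S : Set ℕ)ᶜ).Nonempty := by
    rw [Set.nonempty_compl]
    intro h
    apply hne
    ext x
    have : x ∈ (S : Set ℕ) := h ▸ Set.mem_univ x
    simpa using this
  obtain ⟨f, hf, hmax⟩ := Set.exists_max_image _ id hS hn
  have h2 : ∀ n, f < n → n ∈ S := by
    intro n hn
    by_contra h
    have := hmax n h
    simp only [id] at this
    omega
  exact ⟨f, hf, h2, frob_eq hf h2⟩

/-! ### Tails -/

/-- `S ∪ [k, ∞)`. -/
def tail (S : AddSubmonoid ℕ) (k : ℕ) : AddSubmonoid ℕ where
  carrier := {x | x ∈ S ∨ k ≤ x}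
  add_mem' := by
    rintro a b (ha | ha) (hb | hb)
    · exact Or.inl (S.add_mem ha hb)
    · exact Or.inr (by omega)
    · exact Or.inr (by omega)
    · exact Or.inr (by omega)
  zero_mem' := Or.inl S.zero_mem

lemma mem_tail {S : AddSubmonoid ℕ} {k x : ℕ} : x ∈ tail S k ↔ x ∈ S ∨ k ≤ x := Iff.rfl

variable {V : Set (AddSubmonoid ℕ)}

lemma tail_mem (hV : IsFrobeniusVariety V) (k : ℕ) :
    ∀ (N : ℕ) (S : AddSubmonoid ℕ), S ∈ V → ((S : Set ℕ)ᶜ ∩ {x | k ≤ x}).ncard = N → tail S k ∈ V := by
  intro N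
  induction N using Nat.strong_induction_on with
  | _ N ih =>
    intro S hS hN
    have hnum := hV.numerical S hS
    by_cases hE : ((S : Set ℕ)ᶜ ∩ {x | k ≤ x}) = ∅
    · have : tail S k = S := by
        ext x
        rw [mem_tail]
        constructor
        · rintro (h | h)
          · exact h
          · by_contra hx
            have : x ∈ ((S : Set ℕ)ᶜ ∩ {x | k ≤ x}) := ⟨hx, h⟩
            rw [hE] at this
            exact this
        · exact Or.inl
      rw [this]
      exact hS
    · obtain ⟨y, hy1, hy2⟩ := Set.nonempty_iff_ne_empty.2 hE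
      have hne : S ≠ ⊤ := by
        rintro rfl
        exact hy1 (AddSubmonoid.mem_top _)
      obtain ⟨f, hf, hfa, hfr⟩ := exists_frob hnum hne
      have hyf : y ≤ f := by
        by_contra h
        exact hy1 (hfa y (by omega))
      have hkf : k ≤ f := le_trans hy2 hyf
      obtain ⟨T, hT, hTe⟩ := hV.addFrob S hS hne
      have hmem : ∀ x, x ∈ T ↔ x ∈ S ∨ x = f := by
        intro x
        have : x ∈ (T : Set ℕ) ↔ x ∈ (S : Set ℕ) ∪ {x : ℕ | (x : ℤ) = frob S} := by rw [hTe]
        rw [hfr] at this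
        rw [← SetLike.mem_coe, this]
        simp [or_comm]
      have hfin : ((S : Set ℕ)ᶜ ∩ {x | k ≤ x}).Finite := Set.Finite.inter_of_left hnum _
      have hlt : ((T : Set ℕ)ᶜ ∩ {x | k ≤ x}).ncard < N := by
        rw [← hN]
        apply Set.ncard_lt_ncard _ hfin
        constructor
        · rintro x ⟨hx1, hx2⟩
          refine ⟨?_, hx2⟩
          intro h
          exact hx1 ((hmem x).2 (Or.inl h))
        · intro h
          have := h (show f ∈ ((S : Set ℕ)ᶜ ∩ {x | k ≤ x}) from ⟨hf, hkf⟩)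
          exact this.1 ((hmem f).2 (Or.inr rfl))
      have h3 := ih _ hlt T hT rfl
      have h4 : tail T k = tail S k := by
        ext x
        rw [mem_tail, mem_tail, hmem]
        constructor
        · rintro ((h | h) | h)
          · exact Or.inl h
          · exact Or.inr (by omega)
          · exact Or.inr h
        · rintro (h | h)
          · exact Or.inl (Or.inl h)
          · exact Or.inr h
      rw [← h4]
      exact h3

lemma tail_mem' (hV : IsFrobeniusVariety V) {S : AddSubmonoid ℕ} (hS : S ∈ V) (k : ℕ) :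
    tail S k ∈ V := tail_mem hV k _ S hS rfl

lemma top_mem (hV : IsFrobeniusVariety V) : (⊤ : AddSubmonoid ℕ) ∈ V := by
  obtain ⟨S, hS⟩ := hV.nonempty
  have h := tail_mem' hV hS 0
  have : tail S 0 = ⊤ := by
    ext x
    simp [mem_tail]
  rwa [this] at h

lemma removal (hV : IsFrobeniusVariety V) {S U : AddSubmonoid ℕ} (hS : S ∈ V) (hU : U ∈ V)
    {y : ℕ} (hyU : y ∉ U) (hlt : ∀ z ∈ S, z < y → z ∈ U) :
    ∃ T ∈ V, (T : Set ℕ) = (S : Set ℕ) \ {y} := by
  refine ⟨S ⊓ tail U (y + 1), hV.inter _ hS _ (tail_mem' hV hU _), ?_⟩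
  ext x
  simp only [AddSubmonoid.coe_inf, Set.mem_inter_iff, SetLike.mem_coe, mem_tail, Set.mem_sdiff,
    Set.mem_singleton_iff]
  constructor
  · rintro ⟨h1, h2 | h2⟩
    · exact ⟨h1, fun h => hyU (h ▸ h2)⟩
    · exact ⟨h1, by omega⟩
  · rintro ⟨h1, h2⟩
    refine ⟨h1, ?_⟩
    rcases lt_or_gt_of_ne h2 with h | h
    · exact Or.inl (hlt x h1 h)
    · exact Or.inr (by omega)

/-- The elements of `S` that can be removed inside `V`. -/
def removable (V : Set (AddSubmonoid ℕ)) (S : AddSubmonoid ℕ) : Set ℕ :=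
  {x | x ∈ S ∧ ∃ T ∈ V, (T : Set ℕ) = (S : Set ℕ) \ {x}}

lemma vClosure_le {A : Set ℕ} {S : AddSubmonoid ℕ} (hS : S ∈ V) (h : A ⊆ (S : Set ℕ)) :
    vClosure V A ≤ S := by
  apply sInf_le
  refine ⟨⟨{S}, by simpa using hS, by simp⟩, h⟩

lemma isMinimalSystem_removable (hV : IsFrobeniusVariety V) {S : AddSubmonoid ℕ} (hS : S ∈ V) :
    IsMinimalSystem V (removable V S) S := by
  constructor
  · apply le_antisymm
    · exact vClosure_le hS (fun x hx => hx.1)
    · apply le_sInf
      rintro M ⟨⟨W, hW, rfl⟩, hA⟩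
      apply le_sInf
      intro U hU
      by_contra hnot
      have hex : ∃ y, y ∈ S ∧ y ∉ U := by
        by_contra hno
        push Not at hno
        exact hnot hno
      classical
      let y := Nat.find hex
      have hy : y ∈ S ∧ y ∉ U := Nat.find_spec hex
      have hmin : ∀ z ∈ S, z < y → z ∈ U := by
        intro z hz hzy
        by_contra hzU
        exact Nat.find_min hex hzy ⟨hz, hzU⟩
      obtain ⟨T, hT, hTe⟩ := removal hV hS (hW hU) hy.2 hmin
      have h1 : y ∈ removable V S := ⟨hy.1, T, hT, hTe⟩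
      have h2 : y ∈ ((sInf W : AddSubmonoid ℕ) : Set ℕ) := hA h1
      have h3 : y ∈ U := (sInf_le hU : sInf W ≤ U) h2
      exact hy.2 h3
  · intro B hB hBS
    obtain ⟨x, hx, hxB⟩ := Set.exists_of_ssubset hB
    obtain ⟨hxS, T, hT, hTe⟩ := hx
    have h1 : vClosure V B ≤ T := by
      apply vClosure_le hT
      intro b hb
      rw [hTe]
      refine ⟨(hB.1 hb).1, ?_⟩
      intro h
      rw [Set.mem_singleton_iff] at h
      exact hxB (h ▸ hb)
    rw [hBS] at h1
    have h2 : x ∈ (T : Set ℕ) := h1 hxS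
    rw [hTe] at h2
    exact h2.2 rfl

lemma eq_removable_of_isMinimalSystem (hV : IsFrobeniusVariety V) {S : AddSubmonoid ℕ}
    (hS : S ∈ V) {A : Set ℕ} (hA : IsMinimalSystem V A S) : A = removable V S := by
  have hsub : A ⊆ removable V S := by
    intro x hx
    have hAS : A ⊆ (S : Set ℕ) := by
      intro a ha
      have h0 : a ∈ vClosure V A := by
        rw [vClosure, AddSubmonoid.mem_sInf]
        rintro M ⟨_, hM⟩
        exact hM ha
      rw [hA.1] at h0
      exact h0
    have hB : A \ {x} ⊂ A := by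
      constructor
      · exact Set.sdiff_subset
      · intro h
        exact (h hx).2 rfl
    have hne := hA.2 _ hB
    have hle : vClosure V (A \ {x}) ≤ S := vClosure_le hS (Set.sdiff_subset.trans hAS)
    have hxn : x ∉ vClosure V (A \ {x}) := by
      intro hmem
      apply hne
      apply le_antisymm hle
      rw [← hA.1]
      apply sInf_le
      constructor
      · refine ⟨{M | M ∈ V ∧ A \ {x} ⊆ (M : Set ℕ)}, fun M hM => hM.1, ?_⟩
        apply le_antisymm
        · apply le_sInf
          rintro M ⟨hM, hM2⟩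
          exact vClosure_le hM hM2
        · apply le_sInf
          rintro M ⟨⟨W, hW, rfl⟩, hM2⟩
          apply le_sInf
          intro U hU
          apply sInf_le
          refine ⟨hW hU, ?_⟩
          intro a ha
          exact (sInf_le hU : sInf W ≤ U) (hM2 ha)
      · intro a ha
        by_cases h : a = x
        · rw [h]; exact hmem
        · have h0 : a ∈ vClosure V (A \ {x}) := by
            rw [vClosure, AddSubmonoid.mem_sInf]
            rintro M ⟨_, hM⟩
            exact hM ⟨ha, h⟩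
          exact h0
    -- some member of V contains A \ {x} and not x
    have hex : ∃ U ∈ V, A \ {x} ⊆ (U : Set ℕ) ∧ x ∉ U := by
      by_contra hno
      push Not at hno
      apply hxn
      rw [vClosure, AddSubmonoid.mem_sInf]
      rintro M ⟨⟨W, hW, rfl⟩, hM⟩
      rw [AddSubmonoid.mem_sInf]
      intro U hU
      apply hno U (hW hU)
      intro a ha
      exact (sInf_le hU : sInf W ≤ U) (hM ha)
    obtain ⟨U, hU, hAU, hxU⟩ := hex
    refine ⟨hAS hx, ?_⟩
    apply removal hV hS hU hxU
    intro z hz hzx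
    by_contra hzU
    -- then A is contained in tail U (z + 1), which misses z
    have h1 : A ⊆ (tail U (z + 1) : Set ℕ) := by
      intro a ha
      by_cases h : a = x
      · rw [h]
        exact Or.inr (by omega)
      · exact Or.inl (hAU ⟨ha, h⟩)
    have h2 : vClosure V A ≤ tail U (z + 1) := vClosure_le (tail_mem' hV hU _) h1
    rw [hA.1] at h2
    rcases mem_tail.1 (h2 hz) with h | h
    · exact hzU h
    · omega
  by_contra hne
  have hss : A ⊂ removable V S := ⟨hsub, fun h => hne (Set.Subset.antisymm hsub h)⟩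
  exact (isMinimalSystem_removable hV hS).2 A hss hA.1

/-! ### Minimal generators and counting -/

lemma removable_subset_minGens (S : AddSubmonoid ℕ) : removable V S ⊆ minGens S := by
  rintro x ⟨hxS, T, _, hTe⟩
  have hT : ∀ z, z ∈ T ↔ z ∈ S ∧ z ≠ x := by
    intro z
    have : z ∈ (T : Set ℕ) ↔ z ∈ (S : Set ℕ) \ {x} := by rw [hTe]
    simpa using this
  refine ⟨hxS, ?_, ?_⟩
  · rintro rfl
    exact ((hT 0).1 T.zero_mem).2 rfl
  · intro a ha b hb hab
    by_contra h
    push Not at h
    have h1 : a ∈ T := (hT a).2 ⟨ha, by omega⟩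
    have h2 : b ∈ T := (hT b).2 ⟨hb, by omega⟩
    have h3 := T.add_mem h1 h2
    rw [hab] at h3
    exact ((hT x).1 h3).2 rfl

lemma minGens_finite {S : AddSubmonoid ℕ} (hS : IsNumerical S) : (minGens S).Finite := by
  by_cases hne : S = ⊤
  · subst hne
    apply Set.Finite.subset (Set.finite_singleton 1)
    rintro x ⟨_, hx0, hx⟩
    have := hx 1 (AddSubmonoid.mem_top _) (x - 1) (AddSubmonoid.mem_top _) (by omega)
    simp only [Set.mem_singleton_iff]
    omega
  · obtain ⟨f, _, hfa, _⟩ := exists_frob hS hne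
    apply Set.Finite.subset (Set.finite_Iic (2 * f + 1))
    rintro x ⟨_, hx0, hx⟩
    by_contra hlt
    simp only [Set.mem_Iic, not_le] at hlt
    have := hx (f + 1) (hfa _ (by omega)) (x - (f + 1)) (hfa _ (by omega)) (by omega)
    omega

lemma genus_add_leftCount {S : AddSubmonoid ℕ} {f : ℕ} (hf : f ∉ S) (h : ∀ n, f < n → n ∈ S) :
    genus S + leftCount S = f + 1 := by
  have hfr := frob_eq hf h
  have h1 : (S : Set ℕ)ᶜ ∪ {x : ℕ | x ∈ S ∧ (x : ℤ) < frob S} = Set.Iic f := by
    ext x
    simp only [Set.mem_union, Set.mem_compl_iff, SetLike.mem_coe, Set.mem_ofPred_eq, Set.mem_Iic,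
      hfr]
    constructor
    · rintro (hx | hx)
      · by_contra hlt
        exact hx (h x (by omega))
      · omega
    · intro hx
      by_cases hxS : x ∈ S
      · right
        refine ⟨hxS, ?_⟩
        have : x ≠ f := fun h => hf (h ▸ hxS)
        omega
      · exact Or.inl hxS
  have hfin1 : ((S : Set ℕ)ᶜ).Finite := (Set.finite_Iic f).subset (h1 ▸ Set.subset_union_left)
  have hfin2 : {x : ℕ | x ∈ S ∧ (x : ℤ) < frob S}.Finite :=
    (Set.finite_Iic f).subset (h1 ▸ Set.subset_union_right)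
  have hdis : Disjoint ((S : Set ℕ)ᶜ) {x : ℕ | x ∈ S ∧ (x : ℤ) < frob S} := by
    rw [Set.disjoint_left]
    intro x hx hx2
    exact hx hx2.1
  have h2 := Set.ncard_union_eq hdis hfin1 hfin2
  rw [h1] at h2
  have h3 : (Set.Iic f).ncard = f + 1 := by
    rw [← Finset.coe_Iic, Set.ncard_coe_finset, Nat.card_Iic]
  rw [h3] at h2
  exact h2.symm

/-- The Wilf-type inequality in the form `F + 1 ≤ e n`. -/
lemma wilf_iff {S : AddSubmonoid ℕ} {f : ℕ} (hf : f ∉ S) (h : ∀ n, f < n → n ∈ S) (e : ℕ) :
    ((e : ℤ) * (genus S : ℤ) ≤ ((e : ℤ) - 1) * (frob S + 1)) ↔ f + 1 ≤ e * leftCount S := by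
  have h1 := genus_add_leftCount hf h
  have hfr := frob_eq hf h
  rw [hfr]
  have h2 : (genus S : ℤ) = (f : ℤ) + 1 - (leftCount S : ℤ) := by
    have : ((genus S + leftCount S : ℕ) : ℤ) = ((f + 1 : ℕ) : ℤ) := by rw [h1]
    push_cast at this
    linarith
  rw [h2]
  constructor
  · intro h3
    have : (f : ℤ) + 1 ≤ e * leftCount S := by nlinarith
    exact_mod_cast this
  · intro h3
    have : (f : ℤ) + 1 ≤ e * leftCount S := by exact_mod_cast h3
    nlinarith

lemma wilfType_key (hV : IsFrobeniusVariety V) (hW : WilfType V) {S : AddSubmonoid ℕ}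
    (hS : S ∈ V) {f : ℕ} (hf : f ∉ S) (h : ∀ n, f < n → n ∈ S) :
    f + 1 ≤ (removable V S).ncard * leftCount S :=
  (wilf_iff hf h _).1 (hW S hS _ (isMinimalSystem_removable hV hS))

lemma wilfType_iff (hV : IsFrobeniusVariety V) :
    WilfType V ↔ ∀ S ∈ V, S ≠ ⊤ → frob S + 1 ≤ ((removable V S).ncard : ℤ) * (leftCount S : ℤ) := by
  constructor
  · intro hW S hS hne
    obtain ⟨f, hf, hfa, hfr⟩ := exists_frob (hV.numerical S hS) hne
    have := wilfType_key hV hW hS hf hfa
    rw [hfr]
    exact_mod_cast this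
  · intro h S hS A hA
    rw [eq_removable_of_isMinimalSystem hV hS hA]
    by_cases hne : S = ⊤
    · subst hne
      rw [frob_top]
      simp [genus]
    · obtain ⟨f, hf, hfa, hfr⟩ := exists_frob (hV.numerical S hS) hne
      rw [wilf_iff hf hfa]
      have := h S hS hne
      rw [hfr] at this
      exact_mod_cast this

end Pool.Agent.Helper99.FV
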