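import Pool.Agent.Helper99.FV.Defs

namespace Pool.Agent.Helper99.FV

variable {V : Set (AddSubmonoid ℕ)}

/-- Some member of `V` consists exactly of the numbers with property `P`. -/
def Has (V : Set (AddSubmonoid ℕ)) (P : ℕ → Prop) : Prop := ∃ T ∈ V, ∀ x, x ∈ T ↔ P x

lemma Has.congr {P Q : ℕ → Prop} (h : Has V P) (hPQ : ∀ x, P x ↔ Q x) : Has V Q := by
  obtain ⟨T, hT, hm⟩ := h
  exact ⟨T, hT, fun x => (hm x).trans (hPQ x)⟩

lemma Has.inter (hV : IsFrobeniusVariety V) {P Q : ℕ → Prop} (h : Has V P) (h' : Has V Q) :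
    Has V (fun x => P x ∧ Q x) := by
  obtain ⟨T, hT, hm⟩ := h
  obtain ⟨U, hU, hm'⟩ := h'
  refine ⟨T ⊓ U, hV.inter T hT U hU, fun x => ?_⟩
  rw [AddSubmonoid.mem_inf, hm, hm']

lemma Has.mem {S : AddSubmonoid ℕ} (h : Has V (fun x => x ∈ S)) : S ∈ V := by
  obtain ⟨T, hT, hm⟩ := h
  have : T = S := by
    ext x
    exact hm x
  rwa [this] at hT

/-- If the inequality would fail with one generator less, every minimal generator is
removable. -/
lemma tight_step (hV : IsFrobeniusVariety V) (hW : WilfType V) {S : AddSubmonoid ℕ} (hS : S ∈ V)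
    {f : ℕ} (hf : f ∉ S) (hfa : ∀ n, f < n → n ∈ S)
    (ht : ((minGens S).ncard - 1) * leftCount S < f + 1) : removable V S = minGens S := by
  by_contra hne
  have hss : removable V S ⊂ minGens S :=
    ⟨removable_subset_minGens S, fun h => hne (Set.Subset.antisymm (removable_subset_minGens S) h)⟩
  have h1 := Set.ncard_lt_ncard hss (minGens_finite (hV.numerical S hS))
  have h2 := wilfType_key hV hW hS hf hfa
  have h3 : (removable V S).ncard * leftCount S ≤ ((minGens S).ncard - 1) * leftCount S :=
    Nat.mul_le_mul_right _ (by omega)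
  omega

lemma has_remove (hV : IsFrobeniusVariety V) (hW : WilfType V) {P : ℕ → Prop} (hP : Has V P)
    {f : ℕ} (hf : ¬ P f) (hfa : ∀ n, f < n → P n) (G L : Finset ℕ) (g l : ℕ)
    (hG : ∀ x, P x → x ≠ 0 → x ∉ G → ∃ a b, a ≠ 0 ∧ b ≠ 0 ∧ P a ∧ P b ∧ a + b = x)
    (hL : ∀ x, P x → x < f → x ∈ L) (hGc : G.card ≤ g) (hLc : L.card ≤ l)
    (hlt : (g - 1) * l < f + 1) : ∀ x ∈ G, Has V (fun y => P y ∧ y ≠ x) := by
  obtain ⟨S, hS, hm⟩ := hP
  have hf' : f ∉ S := by rwa [hm]
  have hfa' : ∀ n, f < n → n ∈ S := fun n hn => (hm n).2 (hfa n hn)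
  have hsub : removable V S ⊆ (G : Set ℕ) := by
    intro x hx
    have h1 := removable_subset_minGens S hx
    by_contra hxG
    obtain ⟨a, b, ha, hb, hPa, hPb, hab⟩ := hG x ((hm x).1 h1.1) h1.2.1 (by simpa using hxG)
    rcases h1.2.2 a ((hm a).2 hPa) b ((hm b).2 hPb) hab with h | h
    · exact ha h
    · exact hb h
  have hleft : leftCount S ≤ l := by
    refine le_trans ?_ hLc
    rw [leftCount, ← Set.ncard_coe_finset]
    apply Set.ncard_le_ncard _ (Finset.finite_toSet L)
    rintro x ⟨hx1, hx2⟩
    rw [frob_eq hf' hfa'] at hx2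
    exact hL x ((hm x).1 hx1) (by exact_mod_cast hx2)
  have heq : removable V S = (G : Set ℕ) := by
    by_contra hne
    have hss : removable V S ⊂ (G : Set ℕ) := ⟨hsub, fun h => hne (Set.Subset.antisymm hsub h)⟩
    have h1 := Set.ncard_lt_ncard hss (Finset.finite_toSet G)
    rw [Set.ncard_coe_finset] at h1
    have h2 := wilfType_key hV hW hS hf' hfa'
    have h3 : (removable V S).ncard * leftCount S ≤ (g - 1) * l :=
      Nat.mul_le_mul (by omega) hleft
    omega
  intro x hx
  have hxr : x ∈ removable V S := by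
    rw [heq]
    exact hx
  obtain ⟨_, T, hT, hTe⟩ := hxr
  refine ⟨T, hT, fun y => ?_⟩
  have : y ∈ (T : Set ℕ) ↔ y ∈ (S : Set ℕ) \ {x} := by rw [hTe]
  rw [← SetLike.mem_coe, this]
  simp [hm]

lemma has_two (hV : IsFrobeniusVariety V) (hne : V ≠ {⊤}) : Has V (fun x => x = 0 ∨ 2 ≤ x) := by
  have hex : ∃ S ∈ V, S ≠ ⊤ := by
    by_contra hno
    push Not at hno
    apply hne
    ext S
    rw [Set.mem_singleton_iff]
    exact ⟨hno S, fun h => h ▸ top_mem hV⟩
  obtain ⟨S, hS, hS1⟩ := hex
  have h1 : 1 ∉ S := by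
    intro h1
    apply hS1
    rw [eq_top_iff]
    intro x _
    have := S.nsmul_mem h1 x
    simpa using this
  refine ⟨tail S 2, tail_mem' hV hS 2, fun x => ?_⟩
  rw [mem_tail]
  constructor
  · rintro (h | h)
    · by_contra hx
      have : x = 1 := by omega
      exact h1 (this ▸ h)
    · exact Or.inr h
  · rintro (h | h)
    · exact Or.inl (h ▸ S.zero_mem)
    · exact Or.inr h

/-- The generators of `{0} ∪ [m, ∞)` are removable. -/
lemma ord_remove (hV : IsFrobeniusVariety V) (hW : WilfType V) {m : ℕ} (hm : 2 ≤ m)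
    (h : Has V (fun x => x = 0 ∨ m ≤ x)) :
    ∀ x ∈ Finset.Ico m (2 * m), Has V (fun y => (y = 0 ∨ m ≤ y) ∧ y ≠ x) := by
  apply has_remove hV hW h (f := m - 1) (by omega) (fun n hn => by omega)
    (Finset.Ico m (2 * m)) {0} m 1
  · intro x hx hx0 hxG
    rw [Finset.mem_Ico] at hxG
    exact ⟨m, x - m, by omega, by omega, by omega, by omega, by omega⟩
  · intro x hx hxf
    rw [Finset.mem_singleton]
    omega
  · rw [Nat.card_Ico]
    omega
  · simp
  · omega

lemma ord_mem (hV : IsFrobeniusVariety V) (hW : WilfType V) (hne : V ≠ {⊤}) {m : ℕ}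
    (hm : 2 ≤ m) : Has V (fun x => x = 0 ∨ m ≤ x) := by
  induction m, hm using Nat.le_induction with
  | base => exact has_two hV hne
  | succ n hn ih =>
    refine (ord_remove hV hW hn ih n (by rw [Finset.mem_Ico]; omega)).congr fun y => ?_
    omega

lemma has_sdiff (hV : IsFrobeniusVariety V) {P : ℕ → Prop} (hP : Has V P) (E : Finset ℕ)
    (h : ∀ x ∈ E, Has V (fun y => P y ∧ y ≠ x)) : Has V (fun y => P y ∧ y ∉ E) := by
  induction E using Finset.induction_on with
  | empty => exact hP.congr fun y => by simp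
  | insert a E ha ih =>
    have h1 := ih fun x hx => h x (Finset.mem_insert_of_mem hx)
    have h2 := h a (Finset.mem_insert_self a E)
    refine (h1.inter hV h2).congr fun y => ?_
    rw [Finset.mem_insert]
    tauto

/-- The semigroup `⟨m⟩ ∪ [k m, ∞)` and the removal of its generators. -/
lemma flat_remove (hV : IsFrobeniusVariety V) (hW : WilfType V) {m k : ℕ} (hm : 2 ≤ m)
    (hk : 1 ≤ k) (h : Has V (fun x => m ∣ x ∨ k * m ≤ x)) :
    ∀ x ∈ Finset.Ioo (k * m) ((k + 1) * m),
      Has V (fun y => (m ∣ y ∨ k * m ≤ y) ∧ y ≠ x) := by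
  have hkm : m ≤ k * m := Nat.le_mul_of_pos_left m (by omega)
  have hk1 : (k + 1) * m = k * m + m := by ring
  have key := has_remove hV hW h (f := k * m - 1) ?_ (fun n hn => by omega)
    (insert m (Finset.Ioo (k * m) ((k + 1) * m))) ((Finset.range k).image (fun j => j * m))
    m k ?_ ?_ ?_ ?_ ?_
  · intro x hx
    exact key x (Finset.mem_insert_of_mem hx)
  · rintro (hd | hd)
    · have h1 : m ∣ k * m - 1 + 1 := by
        rw [Nat.sub_add_cancel (by omega)]
        exact Dvd.intro_left k rfl
      have h2 : m ∣ 1 := (Nat.dvd_add_right hd).1 h1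
      have := Nat.le_of_dvd one_pos h2
      omega
    · omega
  · intro x hx hx0 hxG
    rw [Finset.mem_insert, Finset.mem_Ioo, not_or] at hxG
    have hxm : m ≤ x := by
      rcases hx with hx | hx
      · exact Nat.le_of_dvd (by omega) hx
      · omega
    refine ⟨m, x - m, by omega, by omega, Or.inl (dvd_refl m), ?_, by omega⟩
    rcases hx with hx | hx
    · exact Or.inl (Nat.dvd_sub hx (dvd_refl m))
    · by_cases hxk : x = k * m
      · left
        rw [hxk]
        exact Nat.dvd_sub (Dvd.intro_left k rfl) (dvd_refl m)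
      · right
        omega
  · intro x hx hxf
    rcases hx with ⟨c, hc⟩ | hx
    · rw [Finset.mem_image]
      refine ⟨c, ?_, by rw [hc]; ring⟩
      rw [Finset.mem_range]
      by_contra hck
      have : k * m ≤ c * m := Nat.mul_le_mul_right m (by omega)
      rw [hc, mul_comm m c] at hxf
      omega
    · omega
  · refine le_trans (Finset.card_insert_le _ _) ?_
    rw [Nat.card_Ioo]
    omega
  · exact le_trans Finset.card_image_le (by simp)
  · have h3 : (m - 1) * k + k = k * m := by
      obtain ⟨c, rfl⟩ : ∃ c, m = c + 1 := ⟨m - 1, by omega⟩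
      simp only [Nat.add_sub_cancel]
      ring
    omega

lemma flat_mem (hV : IsFrobeniusVariety V) (hW : WilfType V) (hne : V ≠ {⊤}) {m k : ℕ}
    (hm : 2 ≤ m) (hk : 1 ≤ k) : Has V (fun x => m ∣ x ∨ k * m ≤ x) := by
  induction k, hk using Nat.le_induction with
  | base =>
    refine (ord_mem hV hW hne hm).congr fun x => ?_
    rw [one_mul]
    constructor
    · rintro (h | h)
      · exact Or.inl (h ▸ dvd_zero m)
      · exact Or.inr h
    · rintro (h | h)
      · by_cases hx : x = 0
        · exact Or.inl hx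
        · exact Or.inr (Nat.le_of_dvd (by omega) h)
      · exact Or.inr h
  | succ k hk ih =>
    have h1 := has_sdiff hV ih _ (flat_remove hV hW hm hk ih)
    refine h1.congr fun y => ?_
    rw [Finset.mem_Ioo]
    constructor
    · rintro ⟨h2 | h2, h3⟩
      · exact Or.inl h2
      · by_cases hy : y = k * m
        · left
          rw [hy]
          exact Dvd.intro_left k rfl
        · right
          omega
    · have hk1 : (k + 1) * m = k * m + m := by ring
      rintro (h2 | h2)
      · refine ⟨Or.inl h2, ?_⟩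
        rintro ⟨h3, h4⟩
        obtain ⟨c, rfl⟩ := h2
        rw [mul_comm m c] at h3 h4
        have h5 := lt_of_mul_lt_mul_right h3 (Nat.zero_le m)
        have h6 := lt_of_mul_lt_mul_right h4 (Nat.zero_le m)
        omega
      · refine ⟨Or.inr (by omega), ?_⟩
        omega

/-! ### Multiplicity -/

lemma mult_spec {S : AddSubmonoid ℕ} (hS : IsNumerical S) : mult S ∈ S ∧ 0 < mult S := by
  have hn : {x : ℕ | x ∈ S ∧ 0 < x}.Nonempty := by
    by_cases hne : S = ⊤
    · exact ⟨1, by rw [hne]; exact AddSubmonoid.mem_top _, one_pos⟩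
    · obtain ⟨f, _, hfa, _⟩ := exists_frob hS hne
      exact ⟨f + 1, hfa _ (by omega), by omega⟩
  exact Nat.sInf_mem hn

lemma mult_le {S : AddSubmonoid ℕ} {x : ℕ} (hx : x ∈ S) (h0 : 0 < x) : mult S ≤ x :=
  Nat.sInf_le ⟨hx, h0⟩

lemma flat_all (hV : IsFrobeniusVariety V) (hW : WilfType V) (hne : V ≠ {⊤})
    (S : AddSubmonoid ℕ) (hS : IsNumerical S) (k : ℕ)
    (hk : ∀ x ∈ S, x < k * mult S → mult S ∣ x)
    (hF : frob S < ((k : ℤ) + 1) * (mult S : ℤ)) : S ∈ V := by
  by_cases htop : S = ⊤
  · rw [htop]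
    exact top_mem hV
  obtain ⟨f, hf, hfa, hfr⟩ := exists_frob hS htop
  obtain ⟨hmS, hm0⟩ := mult_spec hS
  set m := mult S with hmdef
  have hm2 : 2 ≤ m := by
    by_contra hlt
    have h1 : m = 1 := by omega
    apply htop
    rw [eq_top_iff]
    intro x _
    rw [h1] at hmS
    have := S.nsmul_mem hmS x
    simpa using this
  have hF' : f < (k + 1) * m := by
    rw [hfr] at hF
    exact_mod_cast hF
  -- one may assume `k ≥ 1`
  obtain ⟨j, hj1, hj, hjF⟩ : ∃ j, 1 ≤ j ∧ (∀ x ∈ S, x < j * m → m ∣ x) ∧ f < (j + 1) * m := by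
    by_cases hk0 : k = 0
    · refine ⟨1, le_refl 1, ?_, ?_⟩
      · intro x hx hxm
        by_cases hx0 : x = 0
        · rw [hx0]; exact dvd_zero m
        · have := mult_le hx (by omega)
          omega
      · rw [hk0] at hF'
        omega
    · exact ⟨k, by omega, hk, hF'⟩
  have hj2 : (j + 1) * m = j * m + m := by ring
  classical
  have hrem := flat_remove hV hW hm2 hj1 (flat_mem hV hW hne hm2 hj1)
  have h1 := has_sdiff hV (flat_mem hV hW hne hm2 hj1)
    ((Finset.Ioo (j * m) ((j + 1) * m)).filter (fun x => x ∉ S))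
    (fun x hx => hrem x (Finset.mem_of_mem_filter x hx))
  apply Has.mem
  refine h1.congr fun y => ?_
  rw [Finset.mem_filter, Finset.mem_Ioo]
  have hmul : ∀ c, c * m ∈ S := by
    intro c
    have := S.nsmul_mem hmS c
    rwa [smul_eq_mul] at this
  constructor
  · rintro ⟨h2 | h2, h3⟩
    · obtain ⟨c, rfl⟩ := h2
      rw [mul_comm]
      exact hmul c
    · by_contra hyS
      by_cases hy : y = j * m
      · exact hyS (hy ▸ hmul j)
      · by_cases hy2 : y < (j + 1) * m
        · exact h3 ⟨⟨by omega, hy2⟩, hyS⟩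
        · exact hyS (hfa y (by omega))
  · intro hy
    refine ⟨?_, fun h => h.2 hy⟩
    by_cases hyj : y < j * m
    · exact Or.inl (hj y hy hyj)
    · exact Or.inr (by omega)

/-! ### Multiplicity three -/

/-- The set with Kunz coordinates `(k, l)` at multiplicity 3. -/
def K3 (k l x : ℕ) : Prop := x % 3 = 0 ∨ (x % 3 = 1 ∧ 3 * k < x) ∨ (x % 3 = 2 ∧ 3 * l < x)

lemma K3_step (hV : IsFrobeniusVariety V) (hW : WilfType V) {k l : ℕ} (hk : 1 ≤ k) (hl : 1 ≤ l)
    (hlk : l < 2 * k) (hkl : k < 2 * l + 1) (h : Has V (K3 k l)) :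
    Has V (K3 (k + 1) l) ∧ Has V (K3 k (l + 1)) := by
  have key : ∀ x ∈ ({3, 3 * k + 1, 3 * l + 2} : Finset ℕ), Has V (fun y => K3 k l y ∧ y ≠ x) := by
    have hdec : ∀ x, K3 k l x → x ≠ 0 → x ∉ ({3, 3 * k + 1, 3 * l + 2} : Finset ℕ) →
        ∃ a b, a ≠ 0 ∧ b ≠ 0 ∧ K3 k l a ∧ K3 k l b ∧ a + b = x := by
      intro x hx hx0 hxG
      simp only [Finset.mem_insert, Finset.mem_singleton, not_or] at hxG
      unfold K3 at hx ⊢
      exact ⟨3, x - 3, by omega, by omega, by omega, by omega, by omega⟩
    have hcard : ({3, 3 * k + 1, 3 * l + 2} : Finset ℕ).card ≤ 3 := Finset.card_le_three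
    by_cases hle : k ≤ l
    · apply has_remove hV hW h (f := 3 * l - 1) (by unfold K3; omega)
        (fun n hn => by unfold K3; omega) _
        ((Finset.range l).image (fun j => 3 * j) ∪ (Finset.Ico k l).image (fun j => 3 * j + 1))
        3 (l + (l - k)) hdec
      · intro x hx hxf
        unfold K3 at hx
        rw [Finset.mem_union, Finset.mem_image, Finset.mem_image]
        rcases hx with hx | hx | hx
        · exact Or.inl ⟨x / 3, by rw [Finset.mem_range]; omega, by omega⟩
        · exact Or.inr ⟨x / 3, by rw [Finset.mem_Ico]; omega, by omega⟩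
        · omega
      · exact hcard
      · refine le_trans (Finset.card_union_le _ _) (Nat.add_le_add ?_ ?_)
        · exact le_trans Finset.card_image_le (by simp)
        · exact le_trans Finset.card_image_le (by simp)
      · omega
    · apply has_remove hV hW h (f := 3 * k - 2) (by unfold K3; omega)
        (fun n hn => by unfold K3; omega) _
        ((Finset.range k).image (fun j => 3 * j) ∪
          (Finset.Ico l (k - 1)).image (fun j => 3 * j + 2))
        3 (k + (k - 1 - l)) hdec
      · intro x hx hxf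
        unfold K3 at hx
        rw [Finset.mem_union, Finset.mem_image, Finset.mem_image]
        rcases hx with hx | hx | hx
        · exact Or.inl ⟨x / 3, by rw [Finset.mem_range]; omega, by omega⟩
        · omega
        · exact Or.inr ⟨x / 3, by rw [Finset.mem_Ico]; omega, by omega⟩
      · exact hcard
      · refine le_trans (Finset.card_union_le _ _) (Nat.add_le_add ?_ ?_)
        · exact le_trans Finset.card_image_le (by simp)
        · exact le_trans Finset.card_image_le (by simp)
      · omega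
  constructor
  · refine (key (3 * k + 1) (by simp)).congr fun y => ?_
    unfold K3
    omega
  · refine (key (3 * l + 2) (by simp)).congr fun y => ?_
    unfold K3
    omega

lemma K3_diag (hV : IsFrobeniusVariety V) (hW : WilfType V) (hne : V ≠ {⊤}) {k : ℕ}
    (hk : 1 ≤ k) : Has V (K3 k k) := by
  induction k, hk using Nat.le_induction with
  | base =>
    refine (ord_mem hV hW hne (m := 3) (by omega)).congr fun x => ?_
    unfold K3
    omega
  | succ k hk ih =>
    obtain ⟨h1, h2⟩ := K3_step hV hW hk hk (by omega) (by omega) ih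
    refine (h1.inter hV h2).congr fun x => ?_
    unfold K3
    omega

lemma K3_all (hV : IsFrobeniusVariety V) (hW : WilfType V) (hne : V ≠ {⊤}) {k l : ℕ}
    (hk : 1 ≤ k) (hl : 1 ≤ l) (hlk : l ≤ 2 * k) (hkl : k ≤ 2 * l + 1) : Has V (K3 k l) := by
  rcases Nat.le_total k l with hle | hle
  · induction l, hle using Nat.le_induction with
    | base => exact K3_diag hV hW hne hk
    | succ l hl' ih =>
      have h1 := ih (by omega) (by omega) (by omega)
      exact (K3_step hV hW hk (by omega) (by omega) (by omega) h1).2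
  · induction k, hle using Nat.le_induction with
    | base => exact K3_diag hV hW hne hl
    | succ k hk' ih =>
      have h1 := ih (by omega) (by omega) (by omega)
      exact (K3_step hV hW (by omega) hl (by omega) (by omega) h1).1

lemma mult_three (hV : IsFrobeniusVariety V) (hW : WilfType V) (hne : V ≠ {⊤})
    (S : AddSubmonoid ℕ) (hS : IsNumerical S) (h3 : mult S = 3) : S ∈ V := by
  obtain ⟨hmS, _⟩ := mult_spec hS
  rw [h3] at hmS
  have htop : S ≠ ⊤ := by
    rintro rfl
    have := mult_le (AddSubmonoid.mem_top 1) one_pos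
    omega
  obtain ⟨f, hf, hfa, _⟩ := exists_frob hS htop
  have hstep : ∀ x y, x ∈ S → x ≤ y → x % 3 = y % 3 → y ∈ S := by
    intro x y hx hxy hmod
    have h1 := S.nsmul_mem hmS ((y - x) / 3)
    rw [smul_eq_mul] at h1
    have h2 := S.add_mem hx h1
    have h3 : x + (y - x) / 3 * 3 = y := by omega
    rwa [h3] at h2
  have hex1 : ∃ j, 3 * j + 1 ∈ S := ⟨f + 1, hfa _ (by omega)⟩
  have hex2 : ∃ j, 3 * j + 2 ∈ S := ⟨f + 1, hfa _ (by omega)⟩
  classical
  obtain ⟨k, hk, hkmin⟩ : ∃ k, 3 * k + 1 ∈ S ∧ ∀ j < k, 3 * j + 1 ∉ S :=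
    ⟨Nat.find hex1, Nat.find_spec hex1, fun j hj => Nat.find_min hex1 hj⟩
  obtain ⟨l, hl, hlmin⟩ : ∃ l, 3 * l + 2 ∈ S ∧ ∀ j < l, 3 * j + 2 ∉ S :=
    ⟨Nat.find hex2, Nat.find_spec hex2, fun j hj => Nat.find_min hex2 hj⟩
  have hk1 : 1 ≤ k := by
    by_contra h
    have h0 : k = 0 := by omega
    rw [h0] at hk
    have := mult_le hk (by omega)
    omega
  have hl1 : 1 ≤ l := by
    by_contra h
    have h0 : l = 0 := by omega
    rw [h0] at hl
    have := mult_le hl (by omega)
    omega
  have hlk : l ≤ 2 * k := by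
    by_contra h
    apply hlmin (2 * k) (by omega)
    have := S.add_mem hk hk
    have h2 : 3 * k + 1 + (3 * k + 1) = 3 * (2 * k) + 2 := by ring
    rwa [h2] at this
  have hkl : k ≤ 2 * l + 1 := by
    by_contra h
    apply hkmin (2 * l + 1) (by omega)
    have := S.add_mem hl hl
    have h2 : 3 * l + 2 + (3 * l + 2) = 3 * (2 * l + 1) + 1 := by ring
    rwa [h2] at this
  apply Has.mem
  refine (K3_all hV hW hne hk1 hl1 hlk hkl).congr fun x => ?_
  unfold K3
  constructor
  · rintro (h | ⟨h, h'⟩ | ⟨h, h'⟩)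
    · exact hstep 0 x S.zero_mem (by omega) (by omega)
    · exact hstep _ x hk (by omega) (by omega)
    · exact hstep _ x hl (by omega) (by omega)
  · intro hx
    have h012 : x % 3 = 0 ∨ x % 3 = 1 ∨ x % 3 = 2 := by omega
    rcases h012 with h | h | h
    · exact Or.inl h
    · right; left
      refine ⟨h, ?_⟩
      by_contra hlt
      apply hkmin (x / 3) (by omega)
      have : 3 * (x / 3) + 1 = x := by omega
      rwa [this]
    · right; right
      refine ⟨h, ?_⟩
      by_contra hlt
      apply hlmin (x / 3) (by omega)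
      have : 3 * (x / 3) + 2 = x := by omega
      rwa [this]

/-! ### The varieties of all numerical semigroups containing a set -/

lemma containing_isFrobeniusVariety (A : Set ℕ) :
    IsFrobeniusVariety {S : AddSubmonoid ℕ | IsNumerical S ∧ A ⊆ (S : Set ℕ)} := by
  constructor
  · refine ⟨⊤, ?_, ?_⟩
    · simp [IsNumerical]
    · intro x _
      exact AddSubmonoid.mem_top x
  · intro S hS
    exact hS.1
  · rintro S ⟨hS, hAS⟩ T ⟨hT, hAT⟩
    refine ⟨?_, ?_⟩
    · have : ((S ⊓ T : AddSubmonoid ℕ) : Set ℕ)ᶜ = (S : Set ℕ)ᶜ ∪ (T : Set ℕ)ᶜ := by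
        rw [AddSubmonoid.coe_inf, Set.compl_inter]
      rw [IsNumerical, this]
      exact hS.union hT
    · intro x hx
      exact ⟨hAS hx, hAT hx⟩
  · rintro S ⟨hS, hAS⟩ hne
    obtain ⟨f, hf, hfa, hfr⟩ := exists_frob hS hne
    have hf0 : f ≠ 0 := fun h => hf (h ▸ S.zero_mem)
    refine ⟨{ carrier := (S : Set ℕ) ∪ {x : ℕ | (x : ℤ) = frob S}
              add_mem' := ?_
              zero_mem' := Or.inl S.zero_mem }, ⟨?_, ?_⟩, rfl⟩
    · rintro a b (ha | ha) (hb | hb)
      · exact Or.inl (S.add_mem ha hb)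
      · rw [hfr] at hb ⊢
        have hb' : b = f := by exact_mod_cast hb
        by_cases ha0 : a = 0
        · right
          rw [ha0, zero_add]
          exact hb
        · exact Or.inl (hfa _ (by omega))
      · rw [hfr] at ha ⊢
        have ha' : a = f := by exact_mod_cast ha
        by_cases hb0 : b = 0
        · right
          rw [hb0, add_zero]
          exact ha
        · exact Or.inl (hfa _ (by omega))
      · rw [hfr] at ha hb ⊢
        have ha' : a = f := by exact_mod_cast ha
        have hb' : b = f := by exact_mod_cast hb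
        exact Or.inl (hfa _ (by omega))
    · apply Set.Finite.subset hS
      intro x hx hxS
      exact hx (Or.inl hxS)
    · intro x hx
      exact Or.inl (hAS hx)

lemma containing_iff (A : Set ℕ) :
    WilfType {S : AddSubmonoid ℕ | IsNumerical S ∧ A ⊆ (S : Set ℕ)} ↔
      1 ∈ A ∨ (A ⊆ {0} ∧ WilfType {S : AddSubmonoid ℕ | IsNumerical S}) := by
  have hV := containing_isFrobeniusVariety A
  by_cases h1 : 1 ∈ A
  · simp only [h1, true_or, iff_true]
    rw [wilfType_iff hV]
    rintro S ⟨_, hAS⟩ hne
    exfalso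
    apply hne
    rw [eq_top_iff]
    intro x _
    have := S.nsmul_mem (hAS h1) x
    simpa using this
  · simp only [h1, false_or]
    have hord : ∀ m : ℕ, IsNumerical (tail ⊥ m) := by
      intro m
      apply (Set.finite_Iio m).subset
      intro x hx
      rw [Set.mem_Iio]
      by_contra h
      exact hx (Or.inr (by omega))
    by_cases hA0 : A ⊆ {0}
    · have : {S : AddSubmonoid ℕ | IsNumerical S ∧ A ⊆ (S : Set ℕ)} =
          {S : AddSubmonoid ℕ | IsNumerical S} := by
        ext S
        constructor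
        · exact fun h => h.1
        · refine fun h => ⟨h, fun x hx => ?_⟩
          have : x = 0 := hA0 hx
          rw [this]
          exact S.zero_mem
      rw [this]
      exact ⟨fun h => ⟨hA0, h⟩, fun h => h.2⟩
    · constructor
      · intro hW
        exfalso
        obtain ⟨a, ha, ha0⟩ := Set.not_subset.1 hA0
        rw [Set.mem_singleton_iff] at ha0
        have ha1 : a ≠ 1 := fun h => h1 (h ▸ ha)
        have hne : {S : AddSubmonoid ℕ | IsNumerical S ∧ A ⊆ (S : Set ℕ)} ≠ {⊤} := by
          intro heq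
          have hmem : tail ⊥ 2 ∈ {S : AddSubmonoid ℕ | IsNumerical S ∧ A ⊆ (S : Set ℕ)} := by
            refine ⟨hord 2, fun x hx => ?_⟩
            by_cases hx0 : x = 0
            · left
              rw [hx0]
              exact AddSubmonoid.zero_mem _
            · right
              have : x ≠ 1 := fun h => h1 (h ▸ hx)
              omega
          rw [heq, Set.mem_singleton_iff] at hmem
          have h2 : (1 : ℕ) ∈ tail ⊥ 2 := by
            rw [hmem]
            exact AddSubmonoid.mem_top 1
          rcases h2 with h2 | h2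
          · rw [AddSubmonoid.mem_bot] at h2
            omega
          · omega
        obtain ⟨T, hT, hTm⟩ := ord_mem hV hW hne (m := a + 1) (by omega)
        have := (hTm a).1 (hT.2 ha)
        omega
      · exact fun h => absurd h.1 hA0

end Pool.Agent.Helper99.FV
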