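import Pool.Agent.Helper99.FV.Cont

namespace Pool.Agent.Helper99.FV

lemma VA_rem {S : AddSubmonoid ℕ} (hS : S ∈ VA) {x : ℕ} (hx : x ∈ minGens S)
    (h : x ≠ 13 ∨ ¬ (6 ∈ S ∧ 9 ∈ S ∧ 10 ∈ S ∧ 11 ∈ S)) : x ∈ removable VA S := by
  rw [mem_removable_iff]
  refine ⟨hx, rem_numerical hS.1 hx, ?_⟩
  intro h6 h9 h10 h11
  rcases h with h | h
  · exact ⟨hS.2 h6.1 h9.1 h10.1 h11.1, fun h' => h h'.symm⟩
  · exact absurd ⟨h6.1, h9.1, h10.1, h11.1⟩ h

lemma VB_rem {S : AddSubmonoid ℕ} (hS : S ∈ VB) {x : ℕ} (hx : x ∈ minGens S)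
    (h : x ≠ 14 ∨ ¬ (6 ∈ S ∧ 9 ∈ S ∧ 10 ∈ S ∧ 11 ∈ S ∧ 13 ∈ S)) : x ∈ removable VB S := by
  rw [mem_removable_iff]
  refine ⟨hx, rem_numerical hS.1 hx, ?_⟩
  intro h6 h9 h10 h11 h13
  rcases h with h | h
  · exact ⟨hS.2 h6.1 h9.1 h10.1 h11.1 h13.1, fun h' => h h'.symm⟩
  · exact absurd ⟨h6.1, h9.1, h10.1, h11.1, h13.1⟩ h

/-- The wanted inequality for all numerical semigroups outside a subfamily. -/
lemma wilfType_transfer {V : Set (AddSubmonoid ℕ)} (hV : IsFrobeniusVariety V)
    (h1 : ∀ S, IsNumerical S → S ∉ V → S ≠ ⊤ →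
      frob S + 1 ≤ ((removable allNum S).ncard : ℤ) * (leftCount S : ℤ))
    (h2 : ∀ S ∈ V, S ≠ ⊤ → removable V S ≠ minGens S →
      frob S + 1 ≤ ((removable V S).ncard : ℤ) * (leftCount S : ℤ)) :
    WilfType V ↔ WilfType allNum := by
  rw [wilfType_iff hV, wilfType_iff allNum_isFrobeniusVariety]
  constructor
  · intro hW S hS hne
    by_cases hSV : S ∈ V
    · refine le_trans (hW S hSV hne) ?_
      have h3 : (removable V S).ncard ≤ (removable allNum S).ncard := by
        rw [removable_allNum hS]
        exact Set.ncard_le_ncard (removable_subset_minGens S) (minGens_finite hS)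
      have h4 : (removable V S).ncard * leftCount S ≤ (removable allNum S).ncard * leftCount S :=
        Nat.mul_le_mul_right _ h3
      exact_mod_cast h4
    · exact h1 S hS hSV hne
  · intro hW S hS hne
    by_cases hr : removable V S = minGens S
    · have h3 := hW S (hV.numerical S hS) hne
      rw [removable_allNum (hV.numerical S hS)] at h3
      rwa [hr]
    · exact h2 S hS hne hr

lemma key_lower' {V : Set (AddSubmonoid ℕ)} {S : AddSubmonoid ℕ} (hS : IsNumerical S) {f : ℕ}
    (hf : f ∉ S) (hfa : ∀ n, f < n → n ∈ S) (G L : Finset ℕ)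
    (hG : ∀ x ∈ G, x ∈ removable V S) (hL : ∀ x ∈ L, x ∈ S ∧ x < f)
    (hle : f + 1 ≤ G.card * L.card) :
    frob S + 1 ≤ ((removable V S).ncard : ℤ) * (leftCount S : ℤ) := by
  rw [frob_eq hf hfa]
  have := key_lower (V := V) hS hf hfa G L hG hL hle
  exact_mod_cast this

lemma VA_wilf : WilfType VA ↔ WilfType allNum := by
  apply wilfType_transfer VA_variety
  · intro S hS hSV _
    have h0 : 6 ∈ S ∧ 9 ∈ S ∧ 10 ∈ S ∧ 11 ∈ S ∧ 13 ∉ S := by
      by_contra h
      apply hSV
      refine ⟨hS, fun h6 h9 h10 h11 => ?_⟩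
      by_contra h13
      exact h ⟨h6, h9, h10, h11, h13⟩
    obtain ⟨h6, h9, h10, h11, h13⟩ := h0
    obtain ⟨h12, h15⟩ := basic_mem h6 h9 h10 h11
    obtain ⟨n1, n2, n3, n4, n7, _⟩ := basic_not h6 h9 h10 h11
      (fun a ha b hb hab => absurd (hab ▸ S.add_mem ha hb) h13)
    have z0 := S.zero_mem
    -- the Frobenius number is 13 or 14
    obtain ⟨f, hf, hfa, hf1, hf2⟩ : ∃ f, f ∉ S ∧ (∀ n, f < n → n ∈ S) ∧ 13 ≤ f ∧ f ≤ 14 := by
      by_cases h14 : 14 ∈ S
      · refine ⟨13, h13, fun n hn => ?_, le_refl _, by omega⟩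
        by_cases h : n = 14
        · exact h ▸ h14
        · exact h15 n (by omega)
      · exact ⟨14, h14, fun n hn => h15 n (by omega), by omega, le_refl _⟩
    have g6 : 6 ∈ minGens S := mem_minGens_of h6 (by norm_num) (by
      intro a ha h1 h2 hb
      have h2' : a ≤ 5 := h2
      interval_cases a <;> simp_all)
    have g9 : 9 ∈ minGens S := mem_minGens_of h9 (by norm_num) (by
      intro a ha h1 h2 hb
      have h2' : a ≤ 8 := h2
      interval_cases a <;> simp_all)
    by_cases h5 : 5 ∈ S
    · have g5 : 5 ∈ minGens S := mem_minGens_of h5 (by norm_num) (by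
        intro a ha h1 h2 hb
        have h2' : a ≤ 4 := h2
        interval_cases a <;> simp_all)
      apply key_lower' hS hf hfa {5, 6, 9} {0, 6, 9, 10, 11, 12}
      · intro x hx
        rw [removable_allNum hS]
        simp only [Finset.mem_insert, Finset.mem_singleton] at hx
        rcases hx with rfl | rfl | rfl <;> assumption
      · intro x hx
        simp only [Finset.mem_insert, Finset.mem_singleton] at hx
        rcases hx with rfl | rfl | rfl | rfl | rfl | rfl <;>
          exact ⟨by assumption, by omega⟩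
      · have : ({5, 6, 9} : Finset ℕ).card * ({0, 6, 9, 10, 11, 12} : Finset ℕ).card = 18 := by
          decide
        omega
    · have g10 : 10 ∈ minGens S := mem_minGens_of h10 (by norm_num) (by
        intro a ha h1 h2 hb
        have h2' : a ≤ 9 := h2
        interval_cases a <;> simp_all)
      apply key_lower' hS hf hfa {6, 9, 10} {0, 6, 9, 10, 11, 12}
      · intro x hx
        rw [removable_allNum hS]
        simp only [Finset.mem_insert, Finset.mem_singleton] at hx
        rcases hx with rfl | rfl | rfl <;> assumption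
      · intro x hx
        simp only [Finset.mem_insert, Finset.mem_singleton] at hx
        rcases hx with rfl | rfl | rfl | rfl | rfl | rfl <;>
          exact ⟨by assumption, by omega⟩
      · have : ({6, 9, 10} : Finset ℕ).card * ({0, 6, 9, 10, 11, 12} : Finset ℕ).card = 18 := by
          decide
        omega
  · intro S hS _ hr
    have hnum := hS.1
    have h0 : 13 ∈ minGens S ∧ 6 ∈ S ∧ 9 ∈ S ∧ 10 ∈ S ∧ 11 ∈ S := by
      by_contra h
      apply hr
      apply Set.Subset.antisymm (removable_subset_minGens S)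
      intro x hx
      apply VA_rem hS hx
      by_cases hx13 : x = 13
      · right
        intro h'
        exact h ⟨hx13 ▸ hx, h'⟩
      · exact Or.inl hx13
    obtain ⟨g13, h6, h9, h10, h11⟩ := h0
    have h13 := g13.1
    obtain ⟨h12, h15⟩ := basic_mem h6 h9 h10 h11
    obtain ⟨n1, n2, n3, n4, n7, n58⟩ := basic_not h6 h9 h10 h11 g13.2.2
    have z0 := S.zero_mem
    have g6 : 6 ∈ removable VA S := VA_rem hS (mem_minGens_of h6 (by norm_num) (by
      intro a ha h1 h2 hb
      have h2' : a ≤ 5 := h2
      interval_cases a <;> simp_all)) (Or.inl (by norm_num))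
    have g9 : 9 ∈ removable VA S := VA_rem hS (mem_minGens_of h9 (by norm_num) (by
      intro a ha h1 h2 hb
      have h2' : a ≤ 8 := h2
      interval_cases a <;> simp_all)) (Or.inl (by norm_num))
    by_cases h5 : 5 ∈ S
    · have n8 : 8 ∉ S := by
        rcases n58 with h | h
        · exact absurd h5 h
        · exact h
      have h14 : 14 ∈ S := S.add_mem h5 h9
      have g5 : 5 ∈ removable VA S := VA_rem hS (mem_minGens_of h5 (by norm_num) (by
        intro a ha h1 h2 hb
        have h2' : a ≤ 4 := h2
        interval_cases a <;> simp_all)) (Or.inl (by norm_num))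
      apply key_lower' hnum n8 (fun n hn => ?_) {5, 6, 9} {0, 5, 6}
      · intro x hx
        simp only [Finset.mem_insert, Finset.mem_singleton] at hx
        rcases hx with rfl | rfl | rfl <;> assumption
      · intro x hx
        simp only [Finset.mem_insert, Finset.mem_singleton] at hx
        rcases hx with rfl | rfl | rfl <;> exact ⟨by assumption, by omega⟩
      · decide
      · have : n = 9 ∨ n = 10 ∨ n = 11 ∨ n = 12 ∨ n = 13 ∨ n = 14 ∨ 15 ≤ n := by omega
        rcases this with rfl | rfl | rfl | rfl | rfl | rfl | h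
        all_goals first | assumption | exact h15 n h
    · have g10 : 10 ∈ removable VA S := VA_rem hS (mem_minGens_of h10 (by norm_num) (by
        intro a ha h1 h2 hb
        have h2' : a ≤ 9 := h2
        interval_cases a <;> simp_all)) (Or.inl (by norm_num))
      by_cases h8 : 8 ∈ S
      · have h14 : 14 ∈ S := S.add_mem h8 h6
        have g8 : 8 ∈ removable VA S := VA_rem hS (mem_minGens_of h8 (by norm_num) (by
          intro a ha h1 h2 hb
          have h2' : a ≤ 7 := h2
          interval_cases a <;> simp_all)) (Or.inl (by norm_num))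
        apply key_lower' hnum n7 (fun n hn => ?_) {6, 8, 9, 10} {0, 6}
        · intro x hx
          simp only [Finset.mem_insert, Finset.mem_singleton] at hx
          rcases hx with rfl | rfl | rfl | rfl <;> assumption
        · intro x hx
          simp only [Finset.mem_insert, Finset.mem_singleton] at hx
          rcases hx with rfl | rfl <;> exact ⟨by assumption, by omega⟩
        · decide
        · have : n = 8 ∨ n = 9 ∨ n = 10 ∨ n = 11 ∨ n = 12 ∨ n = 13 ∨ n = 14 ∨ 15 ≤ n := by omega
          rcases this with rfl | rfl | rfl | rfl | rfl | rfl | rfl | h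
          all_goals first | assumption | exact h15 n h
      · by_cases h14 : 14 ∈ S
        · have g11 : 11 ∈ removable VA S := VA_rem hS (mem_minGens_of h11 (by norm_num) (by
            intro a ha h1 h2 hb
            have h2' : a ≤ 10 := h2
            interval_cases a <;> simp_all)) (Or.inl (by norm_num))
          have g14 : 14 ∈ removable VA S := VA_rem hS (mem_minGens_of h14 (by norm_num) (by
            intro a ha h1 h2 hb
            have h2' : a ≤ 13 := h2
            interval_cases a <;> simp_all)) (Or.inl (by norm_num))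
          apply key_lower' hnum h8 (fun n hn => ?_) {6, 9, 10, 11, 14} {0, 6}
          · intro x hx
            simp only [Finset.mem_insert, Finset.mem_singleton] at hx
            rcases hx with rfl | rfl | rfl | rfl | rfl <;> assumption
          · intro x hx
            simp only [Finset.mem_insert, Finset.mem_singleton] at hx
            rcases hx with rfl | rfl <;> exact ⟨by assumption, by omega⟩
          · decide
          · have : n = 9 ∨ n = 10 ∨ n = 11 ∨ n = 12 ∨ n = 13 ∨ n = 14 ∨ 15 ≤ n := by omega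
            rcases this with rfl | rfl | rfl | rfl | rfl | rfl | h
            all_goals first | assumption | exact h15 n h
        · apply key_lower' hnum h14 (fun n hn => h15 n (by omega)) {6, 9, 10}
            {0, 6, 9, 10, 11, 12, 13}
          · intro x hx
            simp only [Finset.mem_insert, Finset.mem_singleton] at hx
            rcases hx with rfl | rfl | rfl <;> assumption
          · intro x hx
            simp only [Finset.mem_insert, Finset.mem_singleton] at hx
            rcases hx with rfl | rfl | rfl | rfl | rfl | rfl | rfl <;>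
              exact ⟨by assumption, by omega⟩
          · decide

lemma VB_not {S : AddSubmonoid ℕ} (h6 : 6 ∈ S) (h9 : 9 ∈ S) (h10 : 10 ∈ S) (h11 : 11 ∈ S)
    (h13 : 13 ∈ S) (h14 : ∀ a ∈ S, ∀ b ∈ S, a + b = 14 → a = 0 ∨ b = 0) :
    1 ∉ S ∧ 2 ∉ S ∧ 3 ∉ S ∧ 4 ∉ S ∧ 5 ∉ S ∧ 7 ∉ S ∧ 8 ∉ S := by
  have h12 : 12 ∈ S := (basic_mem h6 h9 h10 h11).1
  refine ⟨fun h => ?_, fun h => ?_, fun h => ?_, fun h => ?_, fun h => ?_, fun h => ?_,
    fun h => ?_⟩
  · have := h14 1 h 13 h13 rfl
    omega
  · have := h14 2 h 12 h12 rfl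
    omega
  · have := h14 3 h 11 h11 rfl
    omega
  · have := h14 4 h 10 h10 rfl
    omega
  · have := h14 5 h 9 h9 rfl
    omega
  · have := h14 7 h 7 h rfl
    omega
  · have := h14 8 h 6 h6 rfl
    omega

lemma VB_wilf : WilfType VB ↔ WilfType allNum := by
  apply wilfType_transfer VB_variety
  · intro S hS hSV _
    have h0 : 6 ∈ S ∧ 9 ∈ S ∧ 10 ∈ S ∧ 11 ∈ S ∧ 13 ∈ S ∧ 14 ∉ S := by
      by_contra h
      apply hSV
      refine ⟨hS, fun h6 h9 h10 h11 h13 => ?_⟩
      by_contra h14
      exact h ⟨h6, h9, h10, h11, h13, h14⟩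
    obtain ⟨h6, h9, h10, h11, h13, h14⟩ := h0
    obtain ⟨h12, h15⟩ := basic_mem h6 h9 h10 h11
    obtain ⟨n1, n2, n3, n4, n5, n7, n8⟩ := VB_not h6 h9 h10 h11 h13
      (fun a ha b hb hab => absurd (hab ▸ S.add_mem ha hb) h14)
    have z0 := S.zero_mem
    have g6 : 6 ∈ minGens S := mem_minGens_of h6 (by norm_num) (by
      intro a ha h1 h2 hb
      have h2' : a ≤ 5 := h2
      interval_cases a <;> simp_all)
    have g9 : 9 ∈ minGens S := mem_minGens_of h9 (by norm_num) (by
      intro a ha h1 h2 hb
      have h2' : a ≤ 8 := h2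
      interval_cases a <;> simp_all)
    have g10 : 10 ∈ minGens S := mem_minGens_of h10 (by norm_num) (by
      intro a ha h1 h2 hb
      have h2' : a ≤ 9 := h2
      interval_cases a <;> simp_all)
    apply key_lower' hS h14 (fun n hn => h15 n (by omega)) {6, 9, 10} {0, 6, 9, 10, 11, 12, 13}
    · intro x hx
      rw [removable_allNum hS]
      simp only [Finset.mem_insert, Finset.mem_singleton] at hx
      rcases hx with rfl | rfl | rfl <;> assumption
    · intro x hx
      simp only [Finset.mem_insert, Finset.mem_singleton] at hx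
      rcases hx with rfl | rfl | rfl | rfl | rfl | rfl | rfl <;>
        exact ⟨by assumption, by omega⟩
    · decide
  · intro S hS _ hr
    have hnum := hS.1
    have h0 : 14 ∈ minGens S ∧ 6 ∈ S ∧ 9 ∈ S ∧ 10 ∈ S ∧ 11 ∈ S ∧ 13 ∈ S := by
      by_contra h
      apply hr
      apply Set.Subset.antisymm (removable_subset_minGens S)
      intro x hx
      apply VB_rem hS hx
      by_cases hx14 : x = 14
      · right
        intro h'
        exact h ⟨hx14 ▸ hx, h'⟩
      · exact Or.inl hx14
    obtain ⟨g14, h6, h9, h10, h11, h13⟩ := h0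
    have h14 := g14.1
    obtain ⟨h12, h15⟩ := basic_mem h6 h9 h10 h11
    obtain ⟨n1, n2, n3, n4, n5, n7, n8⟩ := VB_not h6 h9 h10 h11 h13 g14.2.2
    have z0 := S.zero_mem
    have g6 : 6 ∈ removable VB S := VB_rem hS (mem_minGens_of h6 (by norm_num) (by
      intro a ha h1 h2 hb
      have h2' : a ≤ 5 := h2
      interval_cases a <;> simp_all)) (Or.inl (by norm_num))
    have g9 : 9 ∈ removable VB S := VB_rem hS (mem_minGens_of h9 (by norm_num) (by
      intro a ha h1 h2 hb
      have h2' : a ≤ 8 := h2
      interval_cases a <;> simp_all)) (Or.inl (by norm_num))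
    have g10 : 10 ∈ removable VB S := VB_rem hS (mem_minGens_of h10 (by norm_num) (by
      intro a ha h1 h2 hb
      have h2' : a ≤ 9 := h2
      interval_cases a <;> simp_all)) (Or.inl (by norm_num))
    have g11 : 11 ∈ removable VB S := VB_rem hS (mem_minGens_of h11 (by norm_num) (by
      intro a ha h1 h2 hb
      have h2' : a ≤ 10 := h2
      interval_cases a <;> simp_all)) (Or.inl (by norm_num))
    have g13 : 13 ∈ removable VB S := VB_rem hS (mem_minGens_of h13 (by norm_num) (by
      intro a ha h1 h2 hb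
      have h2' : a ≤ 12 := h2
      interval_cases a <;> simp_all)) (Or.inl (by norm_num))
    apply key_lower' hnum n8 (fun n hn => ?_) {6, 9, 10, 11, 13} {0, 6}
    · intro x hx
      simp only [Finset.mem_insert, Finset.mem_singleton] at hx
      rcases hx with rfl | rfl | rfl | rfl | rfl <;> assumption
    · intro x hx
      simp only [Finset.mem_insert, Finset.mem_singleton] at hx
      rcases hx with rfl | rfl <;> exact ⟨by assumption, by omega⟩
    · decide
    · have : n = 9 ∨ n = 10 ∨ n = 11 ∨ n = 12 ∨ n = 13 ∨ n = 14 ∨ 15 ≤ n := by omega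
      rcases this with rfl | rfl | rfl | rfl | rfl | rfl | h
      all_goals first | assumption | exact h15 n h

lemma no_common {V : Set (AddSubmonoid ℕ)} (hV : IsFrobeniusVariety V) (hsub : V ⊆ VA ∩ VB)
    (hne : V ≠ {⊤}) : ¬ WilfType V := by
  intro hW
  have h1 := has_sdiff hV (ord_mem hV hW hne (m := 6) (by omega)) {7, 8} (by
    intro x hx
    apply ord_remove hV hW (m := 6) (by omega) (ord_mem hV hW hne (m := 6) (by omega))
    simp only [Finset.mem_insert, Finset.mem_singleton] at hx
    rw [Finset.mem_Ico]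
    omega)
  obtain ⟨S, hS, hm⟩ := h1
  have hmem : ∀ x, x ∈ S ↔ x = 0 ∨ x = 6 ∨ 9 ≤ x := by
    intro x
    rw [hm x]
    simp only [Finset.mem_insert, Finset.mem_singleton]
    omega
  have hf : 8 ∉ S := by
    rw [hmem]
    omega
  have hfa : ∀ n, 8 < n → n ∈ S := by
    intro n hn
    rw [hmem]
    omega
  have key := wilfType_key hV hW hS hf hfa
  have h2 : leftCount S ≤ 2 := by
    have : ({0, 6} : Finset ℕ).card = 2 := by decide
    rw [← this, leftCount, ← Set.ncard_coe_finset]
    apply Set.ncard_le_ncard _ (Finset.finite_toSet _)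
    rintro x ⟨hx1, hx2⟩
    rw [frob_eq hf hfa] at hx2
    have hx2' : x < 8 := by exact_mod_cast hx2
    rw [hmem] at hx1
    simp only [Finset.coe_insert, Finset.coe_singleton, Set.mem_insert_iff,
      Set.mem_singleton_iff]
    omega
  have h3 : (removable V S).ncard ≤ 4 := by
    have : ({6, 9, 10, 11} : Finset ℕ).card = 4 := by decide
    rw [← this, ← Set.ncard_coe_finset]
    apply Set.ncard_le_ncard _ (Finset.finite_toSet _)
    intro x hx
    have hg := removable_subset_minGens S hx
    rw [mem_removable_iff] at hx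
    obtain ⟨hxg, hxV⟩ := hx
    obtain ⟨hA, hB⟩ := hsub hxV
    have m6 : 6 ∈ S := by rw [hmem]; omega
    have m9 : 9 ∈ S := by rw [hmem]; omega
    have m10 : 10 ∈ S := by rw [hmem]; omega
    have m11 : 11 ∈ S := by rw [hmem]; omega
    have m13 : 13 ∈ S := by rw [hmem]; omega
    have hx13 : x ≠ 13 := by
      rintro rfl
      have := hA.2 ⟨m6, by norm_num⟩ ⟨m9, by norm_num⟩ ⟨m10, by norm_num⟩ ⟨m11, by norm_num⟩
      exact this.2 rfl
    have hx14 : x ≠ 14 := by
      rintro rfl
      have := hB.2 ⟨m6, by norm_num⟩ ⟨m9, by norm_num⟩ ⟨m10, by norm_num⟩ ⟨m11, by norm_num⟩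
        ⟨m13, by norm_num⟩
      exact this.2 rfl
    have hxS := (hmem x).1 hg.1
    have hx0 := hg.2.1
    have hx15 : x < 15 := by
      by_contra h
      have := hg.2.2 6 m6 (x - 6) ((hmem _).2 (by omega)) (by omega)
      omega
    have hx12 : x ≠ 12 := by
      rintro rfl
      have := hg.2.2 6 m6 6 m6 rfl
      omega
    simp only [Finset.coe_insert, Finset.coe_singleton, Set.mem_insert_iff,
      Set.mem_singleton_iff]
    omega
  have h4 : (removable V S).ncard * leftCount S ≤ 4 * 2 := Nat.mul_le_mul h3 h2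
  omega

end Pool.Agent.Helper99.FV
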