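import Pool.Agent.Helper99.FV.Forced

namespace Pool.Agent.Helper99.FV

/-- The family of all numerical semigroups. -/
def allNum : Set (AddSubmonoid ℕ) := {S | IsNumerical S}

/-- `S` is symmetric: `a ∈ S` exactly when `F(S) - a ∉ S`. -/
def IsSymmetric (S : AddSubmonoid ℕ) : Prop :=
  ∀ a b : ℕ, (a : ℤ) + (b : ℤ) = frob S → (a ∈ S ↔ b ∉ S)

lemma allNum_isFrobeniusVariety : IsFrobeniusVariety allNum := by
  have h := containing_isFrobeniusVariety ∅
  have : {S : AddSubmonoid ℕ | IsNumerical S ∧ (∅ : Set ℕ) ⊆ (S : Set ℕ)} = allNum := by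
    ext S
    simp [allNum]
  rwa [this] at h

/-- Removal of a minimal generator. -/
def rem (S : AddSubmonoid ℕ) (x : ℕ) (hx : x ∈ minGens S) : AddSubmonoid ℕ where
  carrier := {y | y ∈ S ∧ y ≠ x}
  add_mem' := by
    rintro a b ⟨ha, hax⟩ ⟨hb, hbx⟩
    refine ⟨S.add_mem ha hb, ?_⟩
    intro hab
    rcases hx.2.2 a ha b hb hab with h | h
    · exact hbx (by omega)
    · exact hax (by omega)
  zero_mem' := ⟨S.zero_mem, fun h => hx.2.1 h.symm⟩

lemma mem_rem {S : AddSubmonoid ℕ} {x y : ℕ} {hx : x ∈ minGens S} :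
    y ∈ rem S x hx ↔ y ∈ S ∧ y ≠ x := Iff.rfl

lemma rem_numerical {S : AddSubmonoid ℕ} (hS : IsNumerical S) {x : ℕ} (hx : x ∈ minGens S) :
    IsNumerical (rem S x hx) := by
  apply (hS.union (Set.finite_singleton x)).subset
  intro y hy
  by_cases h : y = x
  · exact Or.inr h
  · exact Or.inl fun hyS => hy ⟨hyS, h⟩

lemma mem_removable_iff {V : Set (AddSubmonoid ℕ)} {S : AddSubmonoid ℕ} {x : ℕ} :
    x ∈ removable V S ↔ ∃ hx : x ∈ minGens S, rem S x hx ∈ V := by
  constructor
  · intro h
    have hx := removable_subset_minGens S h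
    refine ⟨hx, ?_⟩
    obtain ⟨_, T, hT, hTe⟩ := h
    have : rem S x hx = T := by
      apply SetLike.coe_injective
      rw [hTe]
      ext y
      simp [mem_rem]
    rwa [this]
  · rintro ⟨hx, h⟩
    refine ⟨hx.1, _, h, ?_⟩
    ext y
    simp [mem_rem]

lemma removable_finite {V : Set (AddSubmonoid ℕ)} {S : AddSubmonoid ℕ} (hS : IsNumerical S) :
    (removable V S).Finite := (minGens_finite hS).subset (removable_subset_minGens S)

lemma removable_allNum {S : AddSubmonoid ℕ} (hS : IsNumerical S) :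
    removable allNum S = minGens S := by
  ext x
  rw [mem_removable_iff]
  exact ⟨fun h => h.1, fun h => ⟨h, rem_numerical hS h⟩⟩

lemma left_finite (S : AddSubmonoid ℕ) (f : ℕ) (hfr : frob S = f) :
    {x : ℕ | x ∈ S ∧ (x : ℤ) < frob S}.Finite := by
  apply (Set.finite_Iio f).subset
  rintro x ⟨_, hx⟩
  rw [hfr] at hx
  rw [Set.mem_Iio]
  exact_mod_cast hx

/-- A lower bound for both factors gives the inequality. -/
lemma key_lower {V : Set (AddSubmonoid ℕ)} {S : AddSubmonoid ℕ} (hS : IsNumerical S) {f : ℕ}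
    (hf : f ∉ S) (hfa : ∀ n, f < n → n ∈ S) (G L : Finset ℕ)
    (hG : ∀ x ∈ G, x ∈ removable V S) (hL : ∀ x ∈ L, x ∈ S ∧ x < f)
    (hle : f + 1 ≤ G.card * L.card) : f + 1 ≤ (removable V S).ncard * leftCount S := by
  have hfr := frob_eq hf hfa
  have h1 : G.card ≤ (removable V S).ncard := by
    rw [← Set.ncard_coe_finset]
    exact Set.ncard_le_ncard (fun x hx => hG x hx) (removable_finite hS)
  have h2 : L.card ≤ leftCount S := by
    rw [← Set.ncard_coe_finset]
    apply Set.ncard_le_ncard _ (left_finite S f hfr)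
    intro x hx
    have := hL x hx
    refine ⟨this.1, ?_⟩
    rw [hfr]
    exact_mod_cast this.2
  exact le_trans hle (Nat.mul_le_mul h1 h2)

/-! ### Symmetric semigroups of multiplicity at least three -/

section symm

variable {C : AddSubmonoid ℕ}

lemma ne_top_of_mult (h3 : 3 ≤ mult C) : C ≠ ⊤ := by
  rintro rfl
  have := mult_le (AddSubmonoid.mem_top 1) one_pos
  omega

lemma not_mem_of_lt_mult {x : ℕ} (h0 : 0 < x) (hx : x < mult C) : x ∉ C := by
  intro h
  have := mult_le h h0
  omega

/-- Data of a symmetric semigroup of multiplicity at least 3. -/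
lemma sym_data (hC : IsNumerical C) (hs : IsSymmetric C) (h3 : 3 ≤ mult C) :
    ∃ f : ℕ, f ∉ C ∧ (∀ n, f < n → n ∈ C) ∧ frob C = f ∧ mult C < f ∧
      ∀ a b : ℕ, a + b = f → (a ∈ C ↔ b ∉ C) := by
  obtain ⟨f, hf, hfa, hfr⟩ := exists_frob hC (ne_top_of_mult h3)
  have hsym : ∀ a b : ℕ, a + b = f → (a ∈ C ↔ b ∉ C) := by
    intro a b hab
    apply hs
    rw [hfr]
    exact_mod_cast hab
  obtain ⟨hm, _⟩ := mult_spec hC
  refine ⟨f, hf, hfa, hfr, ?_, hsym⟩
  have h1 : f ≠ mult C := fun h => hf (h ▸ hm)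
  by_contra hlt
  have h2 : mult C - 1 ≤ f := by
    by_contra h
    exact not_mem_of_lt_mult (x := mult C - 1) (by omega) (by omega) (hfa _ (by omega))
  have h4 : f = mult C - 1 := by omega
  have h5 := (hsym 1 (f - 1) (by omega)).not
  have h6 : 1 ∉ C := not_mem_of_lt_mult one_pos (by omega)
  have h7 : f - 1 ∉ C := not_mem_of_lt_mult (by omega) (by omega)
  exact h6 ((hsym 1 (f - 1) (by omega)).2 h7)

lemma sym_max (hC : IsNumerical C) (hs : IsSymmetric C) (h3 : 3 ≤ mult C)
    {S : AddSubmonoid ℕ} (hle : C ≤ S) {f : ℕ} (hfr : frob C = f) (hfS : f ∉ S) : S = C := by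
  obtain ⟨f', hf, hfa, hfr', _, hsym⟩ := sym_data hC hs h3
  have : f = f' := by
    rw [hfr] at hfr'
    exact_mod_cast hfr'
  subst this
  apply le_antisymm _ hle
  intro z hz
  by_contra hzC
  have hzf : z ≤ f := by
    by_contra h
    exact hzC (hfa z (by omega))
  have h1 : f - z ∈ C := by
    by_contra h
    exact hzC ((hsym z (f - z) (by omega)).2 h)
  have h2 := S.add_mem hz (hle h1)
  have h4 : z + (f - z) = f := by omega
  rw [h4] at h2
  exact hfS h2

lemma sym_minGens_lt (hC : IsNumerical C) (hs : IsSymmetric C) (h3 : 3 ≤ mult C)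
    {f : ℕ} (hfr : frob C = f) {x : ℕ} (hx : x ∈ minGens C) : x < f := by
  obtain ⟨f', hf, hfa, hfr', hmf, hsym⟩ := sym_data hC hs h3
  have : f = f' := by
    rw [hfr] at hfr'
    exact_mod_cast hfr'
  subst this
  obtain ⟨hxC, hx0, hmin⟩ := hx
  obtain ⟨hm, hm0⟩ := mult_spec hC
  set m := mult C with hmdef
  by_contra hlt
  have hxf : x ≠ f := fun h => hf (h ▸ hxC)
  -- `x = f + i`
  rcases Nat.lt_trichotomy x (f + m) with h | h | h
  · -- `i < m`
    have h1 : f + m - x ∉ C := not_mem_of_lt_mult (by omega) (by omega)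
    have h2 : x - m ∈ C := by
      by_contra h2
      exact h1 ((hsym (f + m - x) (x - m) (by omega)).2 h2)
    rcases hmin m hm (x - m) h2 (by omega) with h4 | h4
    · omega
    · omega
  · -- `x = f + m`
    -- the residue class of some element is neither `0` nor that of `f`
    have hex : ∃ w, w ∈ C ∧ w % m ≠ 0 ∧ w % m ≠ f % m := by
      by_contra hno
      push Not at hno
      have h1 : (f + 1) % m = 0 ∨ (f + 1) % m = f % m := by
        by_contra h
        rw [not_or] at h
        exact h.2 (hno _ (hfa _ (by omega)) h.1)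
      have h2 : (f + 2) % m = 0 ∨ (f + 2) % m = f % m := by
        by_contra h
        rw [not_or] at h
        exact h.2 (hno _ (hfa _ (by omega)) h.1)
      have e1 : ¬ (f + 1) % m = f % m := by
        intro h
        have h5 : f + 1 ≡ f + 0 [MOD m] := h
        have h6 := Nat.ModEq.add_left_cancel' f h5
        have h7 := (Nat.modEq_zero_iff_dvd.1 h6)
        have := Nat.le_of_dvd one_pos h7
        omega
      have e2 : ¬ (f + 2) % m = f % m := by
        intro h
        have h5 : f + 2 ≡ f + 0 [MOD m] := h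
        have h6 := Nat.ModEq.add_left_cancel' f h5
        have h7 := (Nat.modEq_zero_iff_dvd.1 h6)
        have := Nat.le_of_dvd (by omega) h7
        omega
      have h5 := h1.resolve_right e1
      have h6 := h2.resolve_right e2
      have h7 : m ∣ f + 1 := Nat.dvd_of_mod_eq_zero h5
      have h8 : m ∣ f + 1 + 1 := Nat.dvd_of_mod_eq_zero h6
      have h9 := (Nat.dvd_add_right h7).1 h8
      have := Nat.le_of_dvd one_pos h9
      omega
    classical
    obtain ⟨w, ⟨hw, hw0, hwf⟩, hwmin⟩ : ∃ w, (w ∈ C ∧ w % m ≠ 0 ∧ w % m ≠ f % m) ∧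
        ∀ y < w, ¬ (y ∈ C ∧ y % m ≠ 0 ∧ y % m ≠ f % m) :=
      ⟨Nat.find hex, Nat.find_spec hex, fun y hy => Nat.find_min hex hy⟩
    have hwne : w ≠ 0 := fun h => hw0 (by rw [h]; exact Nat.zero_mod m)
    have hwm : m ≤ w := mult_le hw (by omega)
    have hwm1 : w - m ∉ C := by
      intro h4
      apply hwmin (w - m) (by omega)
      have h5 : (w - m) % m = w % m := by
        conv_rhs => rw [← Nat.sub_add_cancel hwm]
        rw [Nat.add_mod_right]
      rw [h5]
      exact ⟨h4, hw0, hwf⟩
    have hwf2 : w - m ≤ f := by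
      by_contra h4
      exact hwm1 (hfa _ (by omega))
    have h4 : f - (w - m) ∈ C := by
      by_contra h4
      exact hwm1 ((hsym (w - m) (f - (w - m)) (by omega)).2 h4)
    rcases hmin w hw (f - (w - m)) h4 (by omega) with h5 | h5
    · exact hwne h5
    · apply hwf
      have h6 : w = f + m := by omega
      rw [h6, Nat.add_mod_right]
  · -- `x > f + m`
    rcases hmin m hm (x - m) (hfa _ (by omega)) (by omega) with h4 | h4
    · omega
    · omega

/-- For a symmetric semigroup the genus equals the number of elements below the Frobenius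
number. -/
lemma sym_genus (hC : IsNumerical C) (hs : IsSymmetric C) (h3 : 3 ≤ mult C) :
    genus C = leftCount C := by
  obtain ⟨f, hf, hfa, hfr, hmf, hsym⟩ := sym_data hC hs h3
  rw [genus, leftCount]
  apply Set.ncard_congr (fun x _ => f - x)
  · intro a ha
    have haf : a ≤ f := by
      by_contra h
      exact ha (hfa a (by omega))
    have ha0 : a ≠ 0 := fun h => ha (h ▸ C.zero_mem)
    refine ⟨?_, ?_⟩
    · by_contra h
      exact ha ((hsym a (f - a) (by omega)).2 h)
    · rw [hfr]
      omega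
  · intro a b ha hb hab
    have haf : a ≤ f := by
      by_contra h
      exact ha (hfa a (by omega))
    have hbf : b ≤ f := by
      by_contra h
      exact hb (hfa b (by omega))
    omega
  · rintro b ⟨hb, hbf⟩
    rw [hfr] at hbf
    have hbf' : b < f := by exact_mod_cast hbf
    refine ⟨f - b, ?_, by omega⟩
    intro h
    exact ((hsym (f - b) b (by omega)).1 h) hb

lemma two_le_minGens (hC : IsNumerical C) (h3 : 3 ≤ mult C) : 2 ≤ (minGens C).ncard := by
  obtain ⟨f, hf, hfa, hfr⟩ := exists_frob hC (ne_top_of_mult h3)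
  obtain ⟨hm, hm0⟩ := mult_spec hC
  set m := mult C with hmdef
  have h1 : m ∈ minGens C := by
    refine ⟨hm, by omega, ?_⟩
    intro a ha b hb hab
    by_contra h
    push Not at h
    have h4 := mult_le ha (by omega)
    have h5 := mult_le hb (by omega)
    omega
  have hex : ∃ w, w ∈ C ∧ ¬ m ∣ w := by
    by_contra hno
    push Not at hno
    have h4 := hno _ (hfa (f + 1) (by omega))
    have h5 := hno _ (hfa (f + 1 + 1) (by omega))
    have h9 := (Nat.dvd_add_right h4).1 h5
    have := Nat.le_of_dvd one_pos h9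
    omega
  classical
  obtain ⟨w, ⟨hw, hwm⟩, hwmin⟩ : ∃ w, (w ∈ C ∧ ¬ m ∣ w) ∧ ∀ y < w, ¬ (y ∈ C ∧ ¬ m ∣ y) :=
    ⟨Nat.find hex, Nat.find_spec hex, fun y hy => Nat.find_min hex hy⟩
  have h2 : w ∈ minGens C := by
    refine ⟨hw, fun h => hwm (h ▸ dvd_zero m), ?_⟩
    intro a ha b hb hab
    by_contra h
    push Not at h
    have ha' : m ∣ a := by
      by_contra h'
      exact hwmin a (by omega) ⟨ha, h'⟩
    have hb' : m ∣ b := by
      by_contra h'
      exact hwmin b (by omega) ⟨hb, h'⟩
    exact hwm (hab ▸ dvd_add ha' hb')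
  have hne : m ≠ w := fun h => hwm (h ▸ dvd_refl m)
  rw [← Set.ncard_pair hne]
  apply Set.ncard_le_ncard _ (minGens_finite hC)
  rintro x (rfl | rfl)
  · exact h1
  · exact h2

/-- A symmetric child of a numerical semigroup and its parent. -/
lemma child_data {S : AddSubmonoid ℕ} (hS : IsNumerical S) {x : ℕ} (hx : x ∈ minGens S)
    (hs : IsSymmetric (rem S x hx)) (h3 : 3 ≤ mult (rem S x hx)) :
    frob (rem S x hx) = x ∧ mult (rem S x hx) < x ∧ x - mult (rem S x hx) ∉ S ∧
      (∀ n, x - mult (rem S x hx) < n → n ∈ S) ∧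
      leftCount S + (mult (rem S x hx) - 1) = leftCount (rem S x hx) ∧
      (minGens S).ncard = (minGens (rem S x hx)).ncard + 1 := by
  have hC := rem_numerical hS hx
  obtain ⟨f, hf, hfa, hfr, hmf, hsym⟩ := sym_data hC hs h3
  have hle : rem S x hx ≤ S := fun y hy => hy.1
  have hfx : f = x := by
    by_contra hne
    have hfS : f ∉ S := fun h => hf ⟨h, hne⟩
    have h1 := sym_max hC hs h3 hle hfr hfS
    have h2 : x ∈ rem S x hx := h1 ▸ hx.1
    exact h2.2 rfl
  subst hfx
  obtain ⟨hm, hm0⟩ := mult_spec hC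
  set m := mult (rem S f hx) with hmdef
  have hg : f - m ∉ S := by
    intro h
    exact ((hsym m (f - m) (by omega)).1 hm) ⟨h, by omega⟩
  have hga : ∀ n, f - m < n → n ∈ S := by
    intro n hn
    rcases Nat.lt_trichotomy n f with h | h | h
    · have h1 : f - n ∉ rem S f hx := not_mem_of_lt_mult (by omega) (by omega)
      by_contra h2
      apply h1
      exact (hsym (f - n) n (by omega)).2 fun h4 => h2 h4.1
    · exact h ▸ hx.1
    · exact (hfa n h).1
  have hgr := frob_eq hg hga
  refine ⟨hfr, hmf, hg, hga, ?_, ?_⟩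
  · have h1 : {y : ℕ | y ∈ rem S f hx ∧ (y : ℤ) < frob (rem S f hx)} =
        {y : ℕ | y ∈ S ∧ (y : ℤ) < frob S} ∪ (Finset.Ioo (f - m) f : Finset ℕ) := by
      ext y
      simp only [Set.mem_ofPred_eq, Set.mem_union, Finset.coe_Ioo, Set.mem_Ioo, hfr, hgr]
      constructor
      · rintro ⟨h1, h2⟩
        have h2' : y < f := by exact_mod_cast h2
        have h4 : y ≠ f - m := fun h => hg (h ▸ h1.1)
        by_cases h5 : y < f - m
        · exact Or.inl ⟨h1.1, by exact_mod_cast h5⟩
        · exact Or.inr ⟨by omega, h2'⟩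
      · rintro (⟨h1, h2⟩ | ⟨h1, h2⟩)
        · have h2' : y < f - m := by exact_mod_cast h2
          exact ⟨⟨h1, by omega⟩, by exact_mod_cast (show y < f by omega)⟩
        · exact ⟨⟨hga y h1, by omega⟩, by exact_mod_cast h2⟩
    have hdis : Disjoint {y : ℕ | y ∈ S ∧ (y : ℤ) < frob S} (Finset.Ioo (f - m) f : Finset ℕ) := by
      rw [Set.disjoint_left]
      rintro y ⟨_, h2⟩ h4
      rw [hgr] at h2
      have h2' : y < f - m := by exact_mod_cast h2
      rw [Finset.coe_Ioo, Set.mem_Ioo] at h4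
      omega
    rw [leftCount, leftCount, h1, Set.ncard_union_eq hdis (left_finite S _ hgr)
      (Finset.finite_toSet _), Set.ncard_coe_finset, Nat.card_Ioo]
    omega
  · have h1 : minGens S = insert f (minGens (rem S f hx)) := by
      ext y
      rw [Set.mem_insert_iff]
      constructor
      · intro hy
        by_cases hyf : y = f
        · exact Or.inl hyf
        · exact Or.inr ⟨⟨hy.1, hyf⟩, hy.2.1, fun a ha b hb hab => hy.2.2 a ha.1 b hb.1 hab⟩
      · rintro (hy | hy)
        · exact hy ▸ hx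
        · have hlt := sym_minGens_lt hC hs h3 hfr hy
          refine ⟨hy.1.1, hy.2.1, fun a ha b hb hab => ?_⟩
          exact hy.2.2 a ⟨ha, by omega⟩ b ⟨hb, by omega⟩ hab
    have h2 : f ∉ minGens (rem S f hx) := fun h => hf h.1
    rw [h1, Set.ncard_insert_of_notMem h2 (minGens_finite hC)]

lemma sym_arith (e N m L F : ℤ) (h1 : F + 1 = 2 * N - m) (h2 : L = N - m + 1) :
    (F + 1 ≤ e * L ↔ m - 2 ≤ (e - 2) * (N - m + 1)) := by
  rw [h1, h2]
  have : (e - 2) * (N - m + 1) = e * (N - m + 1) - 2 * (N - m + 1) := by ring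
  rw [this]
  constructor <;> intro h <;> linarith

lemma cond_iff {S : AddSubmonoid ℕ} (hS : IsNumerical S) {x : ℕ} (hx : x ∈ minGens S)
    (hs : IsSymmetric (rem S x hx)) (h3 : 3 ≤ mult (rem S x hx)) :
    (frob S + 1 ≤ (((minGens S).ncard : ℤ) - 1) * (leftCount S : ℤ)) ↔
      ((mult (rem S x hx) : ℤ) - 2 ≤ (((minGens (rem S x hx)).ncard : ℤ) - 2) *
        ((genus (rem S x hx) : ℤ) - (mult (rem S x hx) : ℤ) + 1)) := by
  have hC := rem_numerical hS hx
  obtain ⟨hfr, hmf, hg, hga, hL, he⟩ := child_data hS hx hs h3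
  have hgen := sym_genus hC hs h3
  obtain ⟨f, hf, hfa, hfr', _, _⟩ := sym_data hC hs h3
  have hfx : f = x := by
    rw [hfr] at hfr'
    exact_mod_cast hfr'.symm
  subst hfx
  have hsum := genus_add_leftCount hf hfa
  have hgr := frob_eq hg hga
  rw [he]
  have h1 : (((minGens (rem S f hx)).ncard + 1 : ℕ) : ℤ) - 1 =
      ((minGens (rem S f hx)).ncard : ℤ) := by
    push_cast
    ring
  rw [h1]
  apply sym_arith
  · rw [hgr]
    omega
  · omega

end symm

/-! ### Omitting a set of symmetric semigroups -/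

/-- All numerical semigroups outside `X`. -/
def without (X : Set (AddSubmonoid ℕ)) : Set (AddSubmonoid ℕ) := {S | IsNumerical S ∧ S ∉ X}

section omitted

variable {X : Set (AddSubmonoid ℕ)}

/-- The parent of `C`, obtained by adding the Frobenius number. -/
lemma parent_data {C : AddSubmonoid ℕ} (hC : IsNumerical C) (hne : C ≠ ⊤) :
    ∃ T : AddSubmonoid ℕ, IsNumerical T ∧
      (T : Set ℕ) = (C : Set ℕ) ∪ {x : ℕ | (x : ℤ) = frob C} ∧
      ∃ (f : ℕ) (hx : f ∈ minGens T), frob C = f ∧ rem T f hx = C ∧ ∀ n, f ≤ n → n ∈ T := by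
  obtain ⟨T, hT, hTe⟩ := allNum_isFrobeniusVariety.addFrob C hC hne
  obtain ⟨f, hf, hfa, hfr⟩ := exists_frob hC hne
  have hmem : ∀ x, x ∈ T ↔ x ∈ C ∨ x = f := by
    intro x
    have : x ∈ (T : Set ℕ) ↔ x ∈ (C : Set ℕ) ∪ {x : ℕ | (x : ℤ) = frob C} := by rw [hTe]
    rw [hfr] at this
    rw [← SetLike.mem_coe, this]
    simp [or_comm]
  have hf0 : f ≠ 0 := fun h => hf (h ▸ C.zero_mem)
  have hx : f ∈ minGens T := by
    refine ⟨(hmem f).2 (Or.inr rfl), hf0, ?_⟩
    intro a ha b hb hab
    by_contra h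
    push Not at h
    have ha' : a ∈ C := by
      rcases (hmem a).1 ha with h1 | h1
      · exact h1
      · omega
    have hb' : b ∈ C := by
      rcases (hmem b).1 hb with h1 | h1
      · exact h1
      · omega
    exact hf (hab ▸ C.add_mem ha' hb')
  refine ⟨T, hT, hTe, f, hx, hfr, ?_, ?_⟩
  · ext y
    rw [mem_rem, hmem]
    constructor
    · rintro ⟨h | h, h'⟩
      · exact h
      · exact absurd h h'
    · intro h
      exact ⟨Or.inl h, fun h' => hf (h' ▸ h)⟩
  · intro n hn
    rw [hmem]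
    rcases Nat.lt_or_eq_of_le hn with h | h
    · exact Or.inl (hfa n h)
    · exact Or.inr h.symm

lemma parent_not_mem (hX : ∀ C ∈ X, IsNumerical C ∧ IsSymmetric C ∧ 3 ≤ mult C)
    {T : AddSubmonoid ℕ} {f : ℕ} (hx : f ∈ minGens T) (h : ∀ n, f ≤ n → n ∈ T) : T ∉ X := by
  intro hT
  obtain ⟨h1, h2, h3⟩ := hX T hT
  obtain ⟨f', hf', _, hfr, _, _⟩ := sym_data h1 h2 h3
  have := sym_minGens_lt h1 h2 h3 hfr hx
  exact hf' (h f' (by omega))

lemma without_isFrobeniusVariety (hX : ∀ C ∈ X, IsNumerical C ∧ IsSymmetric C ∧ 3 ≤ mult C) :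
    IsFrobeniusVariety (without X) := by
  constructor
  · refine ⟨⊤, ?_, ?_⟩
    · simp [IsNumerical]
    · intro h
      exact ne_top_of_mult (hX _ h).2.2 rfl
  · exact fun S hS => hS.1
  · rintro S ⟨hS, hSX⟩ T ⟨hT, hTX⟩
    refine ⟨allNum_isFrobeniusVariety.inter S hS T hT, ?_⟩
    intro hC
    obtain ⟨h1, h2, h3⟩ := hX _ hC
    obtain ⟨f, hf, hfa, hfr, _, _⟩ := sym_data h1 h2 h3
    by_cases hfS : f ∈ S
    · have hfT : f ∉ T := fun h => hf ⟨hfS, h⟩
      have := sym_max h1 h2 h3 inf_le_right hfr hfT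
      exact hTX (this ▸ hC)
    · have := sym_max h1 h2 h3 inf_le_left hfr hfS
      exact hSX (this ▸ hC)
  · rintro S ⟨hS, hSX⟩ hne
    obtain ⟨T, hT, hTe, f, hx, _, _, h⟩ := parent_data hS hne
    exact ⟨T, ⟨hT, parent_not_mem hX hx h⟩, hTe⟩

lemma removable_without {S : AddSubmonoid ℕ} (hS : IsNumerical S) {x : ℕ} :
    x ∈ removable (without X) S ↔ ∃ hx : x ∈ minGens S, rem S x hx ∉ X := by
  rw [mem_removable_iff]
  constructor
  · rintro ⟨hx, h⟩
    exact ⟨hx, h.2⟩
  · rintro ⟨hx, h⟩
    exact ⟨hx, rem_numerical hS hx, h⟩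

lemma without_wilfType_iff (hX : ∀ C ∈ X, IsNumerical C ∧ IsSymmetric C ∧ 3 ≤ mult C) :
    WilfType (without X) ↔ WilfType allNum ∧ ∀ C ∈ X,
      (mult C : ℤ) - 2 ≤ (((minGens C).ncard : ℤ) - 2) * ((genus C : ℤ) - (mult C : ℤ) + 1) := by
  have hV := without_isFrobeniusVariety hX
  -- at most one symmetric child
  have huniq : ∀ (S : AddSubmonoid ℕ), IsNumerical S → ∀ x (hx : x ∈ minGens S),
      rem S x hx ∈ X → removable (without X) S = minGens S \ {x} := by
    intro S hS x hx hxX
    ext y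
    rw [removable_without hS, Set.mem_sdiff, Set.mem_singleton_iff]
    constructor
    · rintro ⟨hy, hyX⟩
      refine ⟨hy, ?_⟩
      rintro rfl
      exact hyX hxX
    · rintro ⟨hy, hyx⟩
      refine ⟨hy, fun hyX => ?_⟩
      have key : ∀ (a b : ℕ) (ha : a ∈ minGens S) (_ : b ∈ minGens S), rem S a ha ∈ X → b ≠ a →
          b < a := by
        intro a b ha hb haX hba
        obtain ⟨h1, h2, h3⟩ := hX _ haX
        have h4 := (child_data hS ha h2 h3).1
        apply sym_minGens_lt h1 h2 h3 h4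
        exact ⟨⟨hb.1, hba⟩, hb.2.1, fun c hc d hd hcd => hb.2.2 c hc.1 d hd.1 hcd⟩
      have h1 := key x y hx hy hxX hyx
      have h2 := key y x hy hx hyX (Ne.symm hyx)
      omega
  constructor
  · intro hW
    have hW' := (wilfType_iff hV).1 hW
    refine ⟨?_, ?_⟩
    · rw [wilfType_iff allNum_isFrobeniusVariety]
      intro S hS hne
      rw [removable_allNum hS]
      by_cases hSX : S ∈ X
      · obtain ⟨h1, h2, h3⟩ := hX S hSX
        obtain ⟨f, hf, hfa, hfr, _, _⟩ := sym_data h1 h2 h3
        have hgen := sym_genus h1 h2 h3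
        have hsum := genus_add_leftCount hf hfa
        have he := two_le_minGens h1 h3
        have h4 : 2 * leftCount S ≤ (minGens S).ncard * leftCount S :=
          Nat.mul_le_mul_right _ he
        rw [hfr]
        have h5 : f + 1 ≤ (minGens S).ncard * leftCount S := by omega
        exact_mod_cast h5
      · have h1 := hW' S ⟨hS, hSX⟩ hne
        refine le_trans h1 ?_
        have h2 : (removable (without X) S).ncard ≤ (minGens S).ncard :=
          Set.ncard_le_ncard (removable_subset_minGens S) (minGens_finite hS)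
        have h3 : (removable (without X) S).ncard * leftCount S ≤ (minGens S).ncard * leftCount S :=
          Nat.mul_le_mul_right _ h2
        exact_mod_cast h3
    · intro C hC
      obtain ⟨h1, h2, h3⟩ := hX C hC
      obtain ⟨T, hT, _, f, hx, hfr, hrem, hge⟩ := parent_data h1 (ne_top_of_mult h3)
      have hTX := parent_not_mem hX hx hge
      have hTne : T ≠ ⊤ := by
        intro htop
        have hx' := hx
        rw [htop] at hx'
        have h4 := hx'.2.2 1 (AddSubmonoid.mem_top _) (f - 1) (AddSubmonoid.mem_top _)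
          (by have := hx'.2.1; omega)
        have h5 : f = 1 := by
          have := hx'.2.1
          omega
        obtain ⟨f', _, _, hfr', hmf, _⟩ := sym_data h1 h2 h3
        rw [hfr] at hfr'
        have : f = f' := by exact_mod_cast hfr'
        omega
      have h4 := hW' T ⟨hT, hTX⟩ hTne
      have hremX : rem T f hx ∈ X := by rwa [hrem]
      rw [huniq T hT f hx hremX] at h4
      have h5 : (minGens T \ {f}).ncard + 1 = (minGens T).ncard :=
        Set.ncard_sdiff_singleton_add_one hx (minGens_finite hT)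
      have h6 := (cond_iff hT hx (by rw [hrem]; exact h2) (by rw [hrem]; exact h3)).1 (by
        have : ((minGens T).ncard : ℤ) - 1 = ((minGens T \ {f}).ncard : ℤ) := by
          rw [← h5]
          push_cast
          ring
        rw [this]
        exact h4)
      rwa [hrem] at h6
  · rintro ⟨hW, hcond⟩
    rw [wilfType_iff hV]
    rintro S ⟨hS, hSX⟩ hne
    have hW' := (wilfType_iff allNum_isFrobeniusVariety).1 hW S hS hne
    rw [removable_allNum hS] at hW'
    by_cases h : ∃ x, ∃ hx : x ∈ minGens S, rem S x hx ∈ X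
    · obtain ⟨x, hx, hxX⟩ := h
      obtain ⟨h1, h2, h3⟩ := hX _ hxX
      rw [huniq S hS x hx hxX]
      have h5 : (minGens S \ {x}).ncard + 1 = (minGens S).ncard :=
        Set.ncard_sdiff_singleton_add_one hx (minGens_finite hS)
      have h6 := (cond_iff hS hx h2 h3).2 (hcond _ hxX)
      have : ((minGens S).ncard : ℤ) - 1 = ((minGens S \ {x}).ncard : ℤ) := by
        rw [← h5]
        push_cast
        ring
      rwa [this] at h6
    · have : removable (without X) S = minGens S := by
        ext y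
        rw [removable_without hS]
        constructor
        · exact fun h' => h'.1
        · exact fun hy => ⟨hy, fun hyX => h ⟨y, hy, hyX⟩⟩
      rwa [this]

end omitted

end Pool.Agent.Helper99.FV
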